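import Mathlib

open scoped BigOperators

namespace Pool.Agent.Results.MP_4da8b1_gt.AntipodalEquality

/-- Euclidean space of dimension `n` -/
abbrev E (n : ℕ) := EuclideanSpace ℝ (Fin n)

/-- a balanced family: a set of `k` unit vectors, `2 ≤ k ≤ n + 1`, such that the origin is a
combination of the vectors of the set with all coefficients strictly positive -/
def Balanced {n : ℕ} (U : Finset (E n)) : Prop :=
  2 ≤ U.card ∧ U.card ≤ n + 1 ∧ (∀ u ∈ U, ‖u‖ = 1) ∧
    ∃ l : E n → ℝ, (∀ u ∈ U, 0 < l u) ∧ ∑ u ∈ U, l u • u = 0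

/-- the largest distance from `c` to a sum formed by choosing one vector from each family -/
noncomputable def M {n : ℕ} (U : Fin (n + 1) → Finset (E n)) (c : E n) : ℝ :=
  ⨆ s : (i : Fin (n + 1)) → {u : E n // u ∈ U i}, ‖(∑ i, (s i : E n)) - c‖

/-! ### Quadratic forms with zero diagonal on sign vectors -/

variable {ι : Type*} [DecidableEq ι]

/-- the quadratic form -/
def q (s : Finset ι) (B : ι → ι → ℝ) (x : ι → ℝ) : ℝ := ∑ a ∈ s, ∑ b ∈ s, B a b * (x a * x b)

lemma q_insert {t : Finset ι} {i : ι} (hi : i ∉ t) {B : ι → ι → ℝ} (hs : ∀ a b, B a b = B b a)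
    (hd : ∀ a, B a a = 0) (x : ι → ℝ) :
    q (insert i t) B x = q t B x + 2 * x i * ∑ b ∈ t, B i b * x b := by
  unfold q
  rw [Finset.sum_insert hi, Finset.sum_insert hi, hd, zero_mul, zero_add]
  have h1 : ∀ a ∈ t, ∑ b ∈ insert i t, B a b * (x a * x b) =
      B i a * x a * x i + ∑ b ∈ t, B a b * (x a * x b) := by
    intro a _
    rw [Finset.sum_insert hi, hs a i]
    ring
  rw [Finset.sum_congr rfl h1, Finset.sum_add_distrib, ← Finset.sum_mul]
  have h2 : ∑ b ∈ t, B i b * (x i * x b) = x i * ∑ b ∈ t, B i b * x b := by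
    rw [Finset.mul_sum]
    exact Finset.sum_congr rfl fun b _ => by ring
  rw [h2]
  ring

omit [DecidableEq ι] in
lemma q_congr {s : Finset ι} {B B' : ι → ι → ℝ} {x y : ι → ℝ}
    (hB : ∀ a ∈ s, ∀ b ∈ s, B a b = B' a b) (h : ∀ a ∈ s, x a = y a) : q s B x = q s B' y := by
  unfold q
  refine Finset.sum_congr rfl fun a ha => Finset.sum_congr rfl fun b hb => ?_
  rw [hB a ha b hb, h a ha, h b hb]

/-- a sign vector -/
def IsSign (e : ι → ℝ) : Prop := ∀ a, e a = 1 ∨ e a = -1

/-- some sign vector gives a nonnegative value -/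
lemma exists_nonneg {B : ι → ι → ℝ} (hs : ∀ a b, B a b = B b a) (hd : ∀ a, B a a = 0)
    (s : Finset ι) : ∃ e, IsSign e ∧ 0 ≤ q s B e := by
  induction s using Finset.induction_on with
  | empty => exact ⟨fun _ => 1, fun _ => Or.inl rfl, by simp [q]⟩
  | insert i t hi ih =>
    obtain ⟨e, he, h0⟩ := ih
    rcases le_total 0 (∑ b ∈ t, B i b * e b) with h | h
    · refine ⟨Function.update e i 1, ?_, ?_⟩
      · intro a
        by_cases ha : a = i
        · subst ha; simp
        · rw [Function.update_of_ne ha]; exact he a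
      · have hc : ∀ a ∈ t, Function.update e i 1 a = e a := fun a ha =>
          Function.update_of_ne (fun h' => hi (by rw [← h']; exact ha)) _ _
        rw [q_insert hi hs hd, q_congr (fun _ _ _ _ => rfl) hc, Function.update_self,
          Finset.sum_congr rfl (fun b hb => by rw [hc b hb])]
        linarith
    · refine ⟨Function.update e i (-1), ?_, ?_⟩
      · intro a
        by_cases ha : a = i
        · subst ha; simp
        · rw [Function.update_of_ne ha]; exact he a
      · have hc : ∀ a ∈ t, Function.update e i (-1) a = e a := fun a ha =>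
          Function.update_of_ne (fun h' => hi (by rw [← h']; exact ha)) _ _
        rw [q_insert hi hs hd, q_congr (fun _ _ _ _ => rfl) hc, Function.update_self,
          Finset.sum_congr rfl (fun b hb => by rw [hc b hb])]
        linarith

/-- the kernel after the coordinate `j` is merged into `i` with sign `σ` -/
def merge (B : ι → ι → ℝ) (i j : ι) (σ : ℝ) : ι → ι → ℝ := fun a b =>
  if a = i then (if b = i then 0 else B i b + σ * B j b)
  else if b = i then B i a + σ * B j a else B a b

lemma merge_symm {B : ι → ι → ℝ} (hs : ∀ a b, B a b = B b a) (i j : ι) (σ : ℝ) :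
    ∀ a b, merge B i j σ a b = merge B i j σ b a := by
  intro a b
  unfold merge
  by_cases ha : a = i <;> by_cases hb : b = i <;> simp [ha, hb, hs a b]

lemma merge_diag {B : ι → ι → ℝ} (hd : ∀ a, B a a = 0) (i j : ι) (σ : ℝ) :
    ∀ a, merge B i j σ a a = 0 := by
  intro a
  unfold merge
  by_cases ha : a = i <;> simp [ha, hd]

lemma q_merge {B : ι → ι → ℝ} (hs : ∀ a b, B a b = B b a) (hd : ∀ a, B a a = 0) {i j : ι}
    {t : Finset ι} (hi : i ∉ t) (σ : ℝ) (x : ι → ℝ) :
    q (insert i t) (merge B i j σ) x =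
      q t B x + 2 * x i * (∑ b ∈ t, B i b * x b + σ * ∑ b ∈ t, B j b * x b) := by
  rw [q_insert hi (merge_symm hs i j σ) (merge_diag hd i j σ)]
  have hne : ∀ a ∈ t, a ≠ i := fun a ha h => hi (h ▸ ha)
  congr 1
  · refine q_congr (fun a ha b hb => ?_) (fun _ _ => rfl)
    simp [merge, hne a ha, hne b hb]
  · congr 1
    rw [Finset.mul_sum, ← Finset.sum_add_distrib]
    refine Finset.sum_congr rfl fun b hb => ?_
    simp [merge, hne b hb]
    ring

/-- the sum of squares -/
def T (s : Finset ι) (x : ι → ℝ) : ℝ := ∑ a ∈ s, x a ^ 2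

omit [DecidableEq ι] in
lemma T_nonneg (s : Finset ι) (x : ι → ℝ) : 0 ≤ T s x := Finset.sum_nonneg fun _ _ => sq_nonneg _

/-- a minimiser on the unit sphere -/
lemma exists_min [Finite ι] (s : Finset ι) (hne : s.Nonempty) (B : ι → ι → ℝ) :
    ∃ v : ι → ℝ, T s v = 1 ∧ ∀ x, q s B v * T s x ≤ q s B x := by
  have hK : IsCompact {x : ι → ℝ | T s x = 1 ∧ ∀ a ∉ s, x a = 0} := by
    refine IsCompact.of_isClosed_subset (isCompact_univ_pi (fun _ : ι => isCompact_Icc (a := (-1 : ℝ)) (b := 1)))
      ?_ ?_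
    · refine IsClosed.inter ?_ ?_
      · exact isClosed_eq (by unfold T; fun_prop) continuous_const
      · have : {x : ι → ℝ | ∀ a ∉ s, x a = 0} = ⋂ a, ⋂ (_ : a ∉ s), {x | x a = 0} := by
          ext x; simp
        change IsClosed {x : ι → ℝ | ∀ a ∉ s, x a = 0}
        rw [this]
        exact isClosed_iInter fun a => isClosed_iInter fun _ =>
          isClosed_eq (continuous_apply a) continuous_const
    · rintro x ⟨h1, h2⟩ a -
      by_cases ha : a ∈ s
      · have h3 : x a ^ 2 ≤ 1 := by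
          rw [← h1]
          exact Finset.single_le_sum (f := fun a => x a ^ 2) (fun _ _ => sq_nonneg _) ha
        exact ⟨by nlinarith, by nlinarith⟩
      · rw [h2 a ha]; exact ⟨by norm_num, by norm_num⟩
  obtain ⟨i, hi⟩ := hne
  have hKn : {x : ι → ℝ | T s x = 1 ∧ ∀ a ∉ s, x a = 0}.Nonempty := by
    refine ⟨Pi.single i 1, ?_, ?_⟩
    · unfold T
      rw [Finset.sum_eq_single i]
      · simp
      · intro b _ hb; simp [hb]
      · intro h; exact absurd hi h
    · intro a ha
      have : a ≠ i := fun h => ha (h ▸ hi)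
      simp [this]
  obtain ⟨v, hv, hmin⟩ := hK.exists_isMinOn hKn
    (f := fun x => q s B x) (by unfold q; fun_prop)
  refine ⟨v, hv.1, fun x => ?_⟩
  rcases eq_or_lt_of_le (T_nonneg s x) with h0 | h0
  · have h1 : ∀ a ∈ s, x a = 0 := by
      intro a ha
      have := (Finset.sum_eq_zero_iff_of_nonneg (fun _ _ => sq_nonneg _)).1 h0.symm a ha
      simpa using this
    have h2 : q s B x = 0 := by
      unfold q
      refine Finset.sum_eq_zero fun a ha => Finset.sum_eq_zero fun b _ => ?_
      rw [h1 a ha]; ring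
    rw [← h0, h2, mul_zero]
  · set r := Real.sqrt (T s x) with hr
    have hr2 : r * r = T s x := Real.mul_self_sqrt h0.le
    have hr0 : 0 < r := Real.sqrt_pos.2 h0
    have hy : (fun a => if a ∈ s then x a / r else 0) ∈
        {x : ι → ℝ | T s x = 1 ∧ ∀ a ∉ s, x a = 0} := by
      refine ⟨?_, fun a ha => by simp [ha]⟩
      unfold T
      have hc : ∀ a ∈ s, (if a ∈ s then x a / r else 0) ^ 2 = x a ^ 2 / r ^ 2 := fun a ha => by
        rw [if_pos ha, div_pow]
      rw [Finset.sum_congr rfl hc, ← Finset.sum_div, div_eq_one_iff_eq (by positivity), pow_two r,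
        hr2]
      rfl
    have h1 : q s B v ≤ q s B (fun a => if a ∈ s then x a / r else 0) := hmin hy
    have h2 : q s B (fun a => if a ∈ s then x a / r else 0) = q s B x / T s x := by
      unfold q
      rw [Finset.sum_div]
      refine Finset.sum_congr rfl fun a ha => ?_
      rw [Finset.sum_div]
      refine Finset.sum_congr rfl fun b hb => ?_
      simp only [if_pos ha, if_pos hb]
      rw [← hr2]
      field_simp
    rw [h2, le_div_iff₀ h0] at h1
    exact h1

omit [DecidableEq ι] in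
lemma T_insert [DecidableEq ι] {t : Finset ι} {i : ι} (hi : i ∉ t) (x : ι → ℝ) :
    T (insert i t) x = x i ^ 2 + T t x := by
  unfold T; rw [Finset.sum_insert hi]

/-- the eigenvector equation -/
lemma eigen {s : Finset ι} {B : ι → ι → ℝ} (hs : ∀ a b, B a b = B b a) (hd : ∀ a, B a a = 0)
    {v : ι → ℝ} {l : ℝ} (hv : q s B v = -l * T s v) (hmin : ∀ x, -l * T s x ≤ q s B x)
    {i : ι} (hi : i ∈ s) : ∑ b ∈ s.erase i, B i b * v b = -l * v i := by
  have hsi : insert i (s.erase i) = s := Finset.insert_erase hi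
  have hni : i ∉ s.erase i := Finset.notMem_erase i s
  set S := ∑ b ∈ s.erase i, B i b * v b with hS
  have hc : ∀ t : ℝ, ∀ a ∈ s.erase i, Function.update v i (v i + t) a = v a := fun t a ha =>
    Function.update_of_ne (Finset.ne_of_mem_erase ha) _ _
  have h1 : ∀ t : ℝ, 0 ≤ t * (2 * S + 2 * l * v i) + l * t ^ 2 := by
    intro t
    have h2 := hmin (Function.update v i (v i + t))
    rw [← hsi, T_insert hni, q_insert hni hs hd, Function.update_self,
      q_congr (fun _ _ _ _ => rfl) (hc t),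
      Finset.sum_congr rfl (fun b hb => by rw [hc t b hb]), ← hS] at h2
    have h3 : T (s.erase i) (Function.update v i (v i + t)) = T (s.erase i) v :=
      Finset.sum_congr rfl fun a ha => by rw [hc t a ha]
    rw [h3] at h2
    rw [← hsi, T_insert hni, q_insert hni hs hd, ← hS] at hv
    nlinarith
  by_contra hne
  have h4 : 2 * S + 2 * l * v i ≠ 0 := fun h => hne (by linarith)
  set D := 2 * S + 2 * l * v i with hD
  have hD2 : 0 < D ^ 2 := by positivity
  have h5 := h1 (-D / (2 * (|l| + 1)))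
  have hl : 0 < |l| + 1 := by positivity
  have h6 : -D / (2 * (|l| + 1)) * D + l * (-D / (2 * (|l| + 1))) ^ 2 =
      D ^ 2 / (2 * (|l| + 1)) * (l / (2 * (|l| + 1)) - 1) := by
    field_simp
    ring
  rw [h6] at h5
  have h7 : l / (2 * (|l| + 1)) - 1 < 0 := by
    rw [sub_neg, div_lt_one (by positivity)]
    linarith [le_abs_self l]
  have h8 : 0 < D ^ 2 / (2 * (|l| + 1)) := by positivity
  nlinarith

/-- the effect of merging the coordinates `i` and `j` of an eigenvector with opposite signs -/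
lemma step {s : Finset ι} {B : ι → ι → ℝ} (hs : ∀ a b, B a b = B b a) (hd : ∀ a, B a a = 0)
    {m : ℝ} (hm : ∀ e : ι → ℝ, IsSign e → q s B e ≤ m)
    (ih : ∀ (s' : Finset ι), s'.card + 1 = s.card → ∀ (B : ι → ι → ℝ),
      (∀ a b, B a b = B b a) → (∀ a, B a a = 0) → ∀ m : ℝ,
      (∀ e : ι → ℝ, IsSign e → q s' B e ≤ m) → ∀ v : ι → ℝ, 0 ≤ m * T s' v + q s' B v)
    {v : ι → ℝ} (hT : T s v = 1) {l : ℝ} (hl : q s B v = -l)
    (hmin : ∀ x, -l * T s x ≤ q s B x) {i j : ι} (hi : i ∈ s) (hj : j ∈ s.erase i)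
    :
    ∃ κ β σ : ℝ, (σ = 1 ∨ σ = -1) ∧ κ = |v i * v j| ∧ B i j = σ * β ∧ σ * (v i * v j) = -κ ∧
      2 * β ≤ m ∧ 0 ≤ (m - 2 * β) * (1 - 2 * κ) +
        (-l + 4 * l * κ - 2 * β * (v i ^ 2 + v j ^ 2) + 2 * β * κ) := by
  have hv : q s B v = -l * T s v := by rw [hT, hl, mul_one]
  have hsi : insert i (s.erase i) = s := Finset.insert_erase hi
  have hni : i ∉ s.erase i := Finset.notMem_erase i s
  have hS := eigen hs hd hv hmin hi
  have hTi : v i ^ 2 + T (s.erase i) v = 1 := by rw [← T_insert hni, hsi, hT]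
  have hji : j ≠ i := Finset.ne_of_mem_erase hj
  -- the set of the other indices
  obtain ⟨t, ht, hjt⟩ : ∃ t, s.erase i = insert j t ∧ j ∉ t :=
    ⟨(s.erase i).erase j, (Finset.insert_erase hj).symm, Finset.notMem_erase _ _⟩
  have hit : i ∉ t := fun h => hni (by rw [ht]; exact Finset.mem_insert_of_mem h)
  have hs' : s = insert j (insert i t) := by
    rw [← hsi, ht, Finset.insert_comm]
  have hji' : j ∉ insert i t := by
    rw [Finset.mem_insert]; push Not; exact ⟨hji, hjt⟩
  -- formula for `q` on `s`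
  have hq : ∀ x : ι → ℝ, q s B x = q t B x + 2 * x i * (∑ b ∈ t, B i b * x b) +
      2 * x j * (B i j * x i + ∑ b ∈ t, B j b * x b) := by
    intro x
    rw [hs', q_insert hji' hs hd, q_insert hit hs hd, Finset.sum_insert hit, hs j i]
  have hSi : B i j * v j + ∑ b ∈ t, B i b * v b = -l * v i := by
    rw [ht, Finset.sum_insert hjt] at hS; exact hS
  have hSj : B i j * v i + ∑ b ∈ t, B j b * v b = -l * v j := by
    have h := eigen hs hd hv hmin (i := j) (Finset.mem_of_mem_erase hj)
    have h2 : s.erase j = insert i t := by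
      rw [hs', Finset.erase_insert hji']
    rw [h2, Finset.sum_insert hit, hs j i] at h
    exact h
  have hTt : v i ^ 2 + (v j ^ 2 + T t v) = 1 := by
    rw [ht, T_insert hjt] at hTi; exact hTi
  -- the sign
  obtain ⟨σ, hσ, hκ⟩ : ∃ σ : ℝ, σ ^ 2 = 1 ∧ σ * (v i * v j) = -|v i * v j| := by
    rcases le_total 0 (v i * v j) with h | h
    · exact ⟨-1, by norm_num, by rw [abs_of_nonneg h]; ring⟩
    · exact ⟨1, by norm_num, by rw [abs_of_nonpos h]; ring⟩
  have hσ' : σ = 1 ∨ σ = -1 := by
    have h : (σ - 1) * (σ + 1) = 0 := by nlinarith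
    rcases mul_eq_zero.1 h with h | h
    · exact Or.inl (by linarith)
    · exact Or.inr (by linarith)
  set κ := |v i * v j| with hκdef
  obtain ⟨β, hβ⟩ : ∃ β, β = σ * B i j := ⟨_, rfl⟩
  have hB : B i j = σ * β := by rw [hβ, ← mul_assoc, ← pow_two, hσ, one_mul]
  -- the sign vectors on the merged set
  have hm' : ∀ e : ι → ℝ, IsSign e → q (insert i t) (merge B i j σ) e ≤ m - 2 * β := by
    intro e he
    have h1 := hm (Function.update e j (σ * e i)) (by
      intro a
      by_cases ha : a = j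
      · subst ha
        rw [Function.update_self]
        rcases hσ' with h | h <;> rcases he i with h' | h' <;> rw [h, h'] <;> norm_num
      · rw [Function.update_of_ne ha]; exact he a)
    have hc : ∀ a ∈ t, Function.update e j (σ * e i) a = e a := fun a ha =>
      Function.update_of_ne (fun h => hjt (by rw [← h]; exact ha)) _ _
    have hcs : ∀ k, ∑ b ∈ t, B k b * Function.update e j (σ * e i) b = ∑ b ∈ t, B k b * e b :=
      fun k => Finset.sum_congr rfl fun b hb => by rw [hc b hb]
    rw [hq, q_congr (fun _ _ _ _ => rfl) hc, hcs i, hcs j, Function.update_self,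
      Function.update_of_ne hji.symm] at h1
    rw [q_merge hs hd hit]
    have he2 : e i ^ 2 = 1 := by rcases he i with h | h <;> rw [h] <;> norm_num
    have h2 : 2 * (σ * e i) * (B i j * e i) = 2 * β := by
      rw [hB]
      linear_combination (2 * β * e i ^ 2) * hσ + (2 * β) * he2
    linarith
  have hcard' : (insert i t).card + 1 = s.card := by
    rw [hs', Finset.card_insert_of_notMem hji']
  have hfin := ih (insert i t) hcard' (merge B i j σ) (merge_symm hs i j σ)
    (merge_diag hd i j σ) (m - 2 * β) hm' (Function.update v i (v i + σ * v j))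
  have hc : ∀ a ∈ t, Function.update v i (v i + σ * v j) a = v a := fun a ha =>
    Function.update_of_ne (fun h => hit (by rw [← h]; exact ha)) _ _
  have hTc : T t (Function.update v i (v i + σ * v j)) = T t v :=
    Finset.sum_congr rfl fun a ha => by rw [hc a ha]
  have hcs : ∀ k, ∑ b ∈ t, B k b * Function.update v i (v i + σ * v j) b = ∑ b ∈ t, B k b * v b :=
    fun k => Finset.sum_congr rfl fun b hb => by rw [hc b hb]
  rw [q_merge hs hd hit, T_insert hit, hcs i, hcs j, Function.update_self, hTc,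
    q_congr (fun _ _ _ _ => rfl) hc] at hfin
  have hqv := hq v
  rw [hl] at hqv
  set Si := ∑ b ∈ t, B i b * v b with hSidef
  set Sj := ∑ b ∈ t, B j b * v b with hSjdef
  have e1 : (v i + σ * v j) ^ 2 + T t v = 1 - 2 * κ := by
    linear_combination hTt + 2 * hκ + v j ^ 2 * hσ
  rw [e1] at hfin
  have hSi' : Si = -l * v i - σ * β * v j := by rw [hB] at hSi; linarith
  have hSj' : Sj = -l * v j - σ * β * v i := by rw [hB] at hSj; linarith
  have e2 : q t B v + 2 * (v i + σ * v j) * (Si + σ * Sj) =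
      -l + 4 * l * κ - 2 * β * (v i ^ 2 + v j ^ 2) + 2 * β * κ := by
    rw [hB, hSi', hSj'] at hqv
    rw [hSi', hSj']
    linear_combination (-hqv) + (-4 * l - 2 * β) * hκ +
      (-2 * β * v i ^ 2 - 2 * β * v j ^ 2 - 2 * l * v j ^ 2 - 2 * β * σ * v i * v j) * hσ
  rw [e2] at hfin
  have hm2 : 2 * β ≤ m := by
    obtain ⟨e, he, h0⟩ := exists_nonneg (merge_symm hs i j σ) (merge_diag hd i j σ) (insert i t)
    linarith [h0.trans (hm' e he)]
  exact ⟨κ, β, σ, hσ', rfl, hB, hκ, hm2, hfin⟩

/-- the geometric inequality used for the coordinate of largest modulus -/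
lemma geo {x y κ : ℝ} (hxy : y ^ 2 ≤ x ^ 2) (hκ : κ = |x * y|) :
    1 - x ^ 2 + (|x| - |y|) * (2 * |x| - |y|) = 1 + (x ^ 2 + y ^ 2) - 3 * κ ∧
      0 ≤ (|x| - |y|) * (2 * |x| - |y|) := by
  have h1 : |y| ≤ |x| := sq_le_sq.1 hxy
  have h2 : κ = |x| * |y| := by rw [hκ, abs_mul]
  have h3 : x ^ 2 = |x| ^ 2 := (sq_abs _).symm
  have h4 : y ^ 2 = |y| ^ 2 := (sq_abs _).symm
  refine ⟨?_, mul_nonneg (by linarith) (by linarith [abs_nonneg x])⟩
  rw [h2, h3, h4]
  ring

/-- **Main lemma.** If `q ≤ m` on all sign vectors then `q v ≥ - m ‖v‖²` for every `v`. -/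
theorem main [Finite ι] : ∀ (N : ℕ) (s : Finset ι), s.card = N → ∀ (B : ι → ι → ℝ),
    (∀ a b, B a b = B b a) → (∀ a, B a a = 0) → ∀ m : ℝ,
    (∀ e : ι → ℝ, IsSign e → q s B e ≤ m) → ∀ v : ι → ℝ, 0 ≤ m * T s v + q s B v := by
  intro N
  induction N with
  | zero =>
    intro s hs B _ _ m _ v
    rw [Finset.card_eq_zero] at hs
    subst hs
    simp [q, T]
  | succ N ih =>
    intro s hcard B hs hd m hm v0
    have hne : s.Nonempty := by rw [← Finset.card_pos]; omega
    obtain ⟨v, hT, hmin⟩ := exists_min s hne B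
    obtain ⟨l, hl⟩ : ∃ l, q s B v = -l := ⟨-q s B v, by ring⟩
    rw [hl] at hmin
    have hv : q s B v = -l * T s v := by rw [hT, hl, mul_one]
    suffices hml : l ≤ m by
      have h1 := hmin v0
      have h2 := T_nonneg s v0
      nlinarith
    have hm0 : 0 ≤ m := by
      obtain ⟨e, he, h0⟩ := exists_nonneg hs hd s
      exact h0.trans (hm e he)
    by_contra hlm
    push Not at hlm
    have hl0 : 0 < l := hm0.trans_lt hlm
    obtain ⟨i, hi, himax⟩ := s.exists_max_image (fun a => v a ^ 2) hne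
    have hsi : insert i (s.erase i) = s := Finset.insert_erase hi
    have hni : i ∉ s.erase i := Finset.notMem_erase i s
    have hvi : 0 < v i ^ 2 := by
      by_contra h
      push Not at h
      have : T s v ≤ 0 := Finset.sum_nonpos fun a ha => (himax a ha).trans h
      linarith
    have hvi' : v i ≠ 0 := fun h => by rw [h] at hvi; norm_num at hvi
    have hS := eigen hs hd hv hmin hi
    have hTi : v i ^ 2 + T (s.erase i) v = 1 := by rw [← T_insert hni, hsi, hT]
    -- the choice of `j`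
    obtain ⟨j, hj, hvj, hH⟩ : ∃ j ∈ s.erase i, v j ≠ 0 ∧
        l * v i ^ 2 * v j ^ 2 ≤ -(B i j * v j) * v i * (1 - v i ^ 2) := by
      by_contra hcon
      push Not at hcon
      have hex : ∃ j ∈ s.erase i, v j ≠ 0 := by
        by_contra h
        push Not at h
        rw [Finset.sum_eq_zero (fun b hb => by rw [h b hb, mul_zero])] at hS
        rcases mul_eq_zero.1 hS.symm with h | h
        · linarith
        · exact hvi' h
      obtain ⟨j0, hj0, hj0'⟩ := hex
      have hlt : ∑ j ∈ s.erase i, -(B i j * v j) * v i * (1 - v i ^ 2) <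
          ∑ j ∈ s.erase i, l * v i ^ 2 * v j ^ 2 := by
        refine Finset.sum_lt_sum (fun j hj => ?_) ⟨j0, hj0, hcon j0 hj0 hj0'⟩
        by_cases h : v j = 0
        · rw [h]; simp
        · exact (hcon j hj h).le
      rw [← Finset.mul_sum, ← Finset.sum_mul, ← Finset.sum_mul, Finset.sum_neg_distrib, hS] at hlt
      change _ < l * v i ^ 2 * T (s.erase i) v at hlt
      have : T (s.erase i) v = 1 - v i ^ 2 := by linarith
      rw [this] at hlt
      nlinarith
    obtain ⟨κ, β, σ, hσ', hκdef, hB, hκ, hm2, hfin⟩ := step hs hd hm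
      (fun s' h' => ih s' (by omega)) hT hl hmin hi hj
    have hκ0 : 0 < κ := by
      rw [hκdef, abs_pos]
      exact mul_ne_zero hvi' hvj
    have hκ2 : κ ^ 2 = v i ^ 2 * v j ^ 2 := by rw [hκdef, sq_abs]; ring
    have h1v : 0 < 1 - v i ^ 2 := by
      have h1 : 0 < v j ^ 2 := by positivity
      have h2 : v j ^ 2 ≤ T (s.erase i) v :=
        Finset.single_le_sum (f := fun a => v a ^ 2) (fun _ _ => sq_nonneg _) hj
      linarith
    have hβκ : l * κ ≤ β * (1 - v i ^ 2) := by
      have h1 : -(B i j * v j) * v i * (1 - v i ^ 2) = κ * (β * (1 - v i ^ 2)) := by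
        rw [hB]
        linear_combination (-β * (1 - v i ^ 2)) * hκ
      rw [h1] at hH
      have h2 : l * v i ^ 2 * v j ^ 2 = κ * (l * κ) := by
        linear_combination (-l) * hκ2
      rw [h2] at hH
      exact le_of_mul_le_mul_left hH hκ0
    have hβ0 : 0 < β := by
      by_contra h
      push Not at h
      have h1 : 0 < l * κ := by positivity
      nlinarith
    obtain ⟨hg1, hg2⟩ := geo (himax j (Finset.mem_of_mem_erase hj)) hκdef
    have h9 : l * κ ≤ β * (1 + (v i ^ 2 + v j ^ 2) - 3 * κ) := by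
      rw [← hg1, mul_add]
      have := mul_nonneg hβ0.le hg2
      linarith
    have h2β : 2 * β < l := by linarith
    have hκle : 2 * κ < 1 := by
      have h2 : 2 * β * κ < l * κ := mul_lt_mul_of_pos_right h2β hκ0
      by_contra h
      push Not at h
      nlinarith
    have h10 : 0 ≤ (m - l) * (1 - 2 * κ) := by nlinarith
    have h11 : (m - l) * (1 - 2 * κ) < 0 := mul_neg_of_neg_of_pos (by linarith) (by linarith)
    linarith

/-- **Equality in the main lemma.** If `q ≤ m` on all sign vectors and `q v = -m`, `‖v‖ = 1`,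
then the nonzero coordinates of `v` have the same modulus, and the entries of `B` between them
are determined. -/
theorem main_eq [Finite ι] {s : Finset ι} {B : ι → ι → ℝ} (hs : ∀ a b, B a b = B b a)
    (hd : ∀ a, B a a = 0) {m : ℝ} (hm0 : 0 < m) (hm : ∀ e : ι → ℝ, IsSign e → q s B e ≤ m)
    {v : ι → ℝ} (hT : T s v = 1) (hl : q s B v = -m) :
    ∃ r : ℝ, 0 < r ∧ (∀ a ∈ s, v a ≠ 0 → v a ^ 2 = r) ∧
      ∀ a ∈ s, ∀ b ∈ s, a ≠ b → v a ≠ 0 → v b ≠ 0 → B a b * (v a * v b) * (1 - r) = -m * r ^ 2 := by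
  have hmain := main s.card s rfl B hs hd m hm
  have hmin : ∀ x, -m * T s x ≤ q s B x := fun x => by linarith [hmain x]
  have hv : q s B v = -m * T s v := by rw [hT, hl, mul_one]
  have hne : s.Nonempty := by
    by_contra h
    rw [Finset.not_nonempty_iff_eq_empty] at h
    rw [h] at hT
    simp [T] at hT
  -- for a coordinate of maximal modulus
  have hmaxcase : ∀ i ∈ s, (∀ a ∈ s, v a ^ 2 ≤ v i ^ 2) → ∀ j ∈ s.erase i, v j ≠ 0 →
      v j ^ 2 = v i ^ 2 ∧ B i j * (v i * v j) * (1 - v i ^ 2) = -m * v i ^ 2 * v j ^ 2 := by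
    intro i hi himax
    have hsi : insert i (s.erase i) = s := Finset.insert_erase hi
    have hni : i ∉ s.erase i := Finset.notMem_erase i s
    have hTi : v i ^ 2 + T (s.erase i) v = 1 := by rw [← T_insert hni, hsi, hT]
    have hvi : 0 < v i ^ 2 := by
      by_contra h
      push Not at h
      have : T s v ≤ 0 := Finset.sum_nonpos fun a ha => (himax a ha).trans h
      linarith
    have hvi' : v i ≠ 0 := fun h => by rw [h] at hvi; norm_num at hvi
    have hS := eigen hs hd hv hmin hi
    -- one inequality for each `j`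
    have hle : ∀ j ∈ s.erase i, v j ≠ 0 →
        m * v i ^ 2 * v j ^ 2 ≤ -(B i j * v j) * v i * (1 - v i ^ 2) →
        v j ^ 2 = v i ^ 2 ∧ m * v i ^ 2 * v j ^ 2 = -(B i j * v j) * v i * (1 - v i ^ 2) := by
      intro j hj hvj hH
      obtain ⟨κ, β, σ, hσ', hκdef, hB, hκ, hm2, hfin⟩ := step hs hd hm
        (fun s' _ => main s'.card s' rfl) hT hl hmin hi hj
      have hκ0 : 0 < κ := by
        rw [hκdef, abs_pos]
        exact mul_ne_zero hvi' hvj
      have hκ2 : κ ^ 2 = v i ^ 2 * v j ^ 2 := by rw [hκdef, sq_abs]; ring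
      have h1v : 0 < 1 - v i ^ 2 := by
        have h1 : 0 < v j ^ 2 := by positivity
        have h2 : v j ^ 2 ≤ T (s.erase i) v :=
          Finset.single_le_sum (f := fun a => v a ^ 2) (fun _ _ => sq_nonneg _) hj
        linarith
      have h1 : -(B i j * v j) * v i * (1 - v i ^ 2) = κ * (β * (1 - v i ^ 2)) := by
        rw [hB]
        linear_combination (-β * (1 - v i ^ 2)) * hκ
      have h2 : m * v i ^ 2 * v j ^ 2 = κ * (m * κ) := by
        linear_combination (-m) * hκ2
      have hβκ : m * κ ≤ β * (1 - v i ^ 2) := by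
        rw [h1, h2] at hH
        exact le_of_mul_le_mul_left hH hκ0
      have hβ0 : 0 < β := by
        by_contra h
        push Not at h
        have h1 : 0 < m * κ := by positivity
        nlinarith
      obtain ⟨hg1, hg2⟩ := geo (himax j (Finset.mem_of_mem_erase hj)) hκdef
      have h9 : β * (1 + (v i ^ 2 + v j ^ 2) - 3 * κ) ≤ m * κ := by nlinarith
      have h10 : β * ((|v i| - |v j|) * (2 * |v i| - |v j|)) ≤ 0 := by
        rw [← hg1, mul_add] at h9
        linarith
      have h11 : (|v i| - |v j|) * (2 * |v i| - |v j|) = 0 := by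
        have := mul_nonneg hβ0.le hg2
        have h12 : β * ((|v i| - |v j|) * (2 * |v i| - |v j|)) = 0 := le_antisymm h10 this
        rcases mul_eq_zero.1 h12 with h | h
        · exact absurd h hβ0.ne'
        · exact h
      have h13 : |v j| ≤ |v i| := sq_le_sq.1 (himax j (Finset.mem_of_mem_erase hj))
      have h14 : 0 < |v i| := abs_pos.2 hvi'
      have h15 : |v i| = |v j| := by
        rcases mul_eq_zero.1 h11 with h | h
        · linarith
        · linarith
      refine ⟨by rw [← sq_abs, ← h15, sq_abs], ?_⟩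
      rw [h1, h2]
      have h16 : m * κ = β * (1 - v i ^ 2) := by
        refine le_antisymm hβκ ?_
        rw [← hg1, h11, add_zero] at h9
        exact h9
      rw [h16]
    -- all the inequalities are equalities
    have hnlt : ∀ j ∈ s.erase i, ¬ m * v i ^ 2 * v j ^ 2 < -(B i j * v j) * v i * (1 - v i ^ 2) := by
      intro j hj hlt
      have hvj : v j ≠ 0 := by
        intro h
        rw [h] at hlt
        simp at hlt
      exact absurd (hle j hj hvj hlt.le).2 hlt.ne
    have hall : ∀ j ∈ s.erase i,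
        -(B i j * v j) * v i * (1 - v i ^ 2) = m * v i ^ 2 * v j ^ 2 := by
      by_contra hcon
      push Not at hcon
      obtain ⟨j0, hj0, hj0'⟩ := hcon
      have hlt : ∑ j ∈ s.erase i, -(B i j * v j) * v i * (1 - v i ^ 2) <
          ∑ j ∈ s.erase i, m * v i ^ 2 * v j ^ 2 :=
        Finset.sum_lt_sum (fun j hj => not_lt.1 (hnlt j hj))
          ⟨j0, hj0, lt_of_le_of_ne (not_lt.1 (hnlt j0 hj0)) hj0'⟩
      rw [← Finset.mul_sum, ← Finset.sum_mul, ← Finset.sum_mul, Finset.sum_neg_distrib, hS] at hlt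
      change _ < m * v i ^ 2 * T (s.erase i) v at hlt
      have : T (s.erase i) v = 1 - v i ^ 2 := by linarith
      rw [this] at hlt
      nlinarith
    intro j hj hvj
    obtain ⟨h1, h2⟩ := hle j hj hvj (hall j hj).symm.le
    exact ⟨h1, by linarith⟩
  obtain ⟨i, hi, himax⟩ := s.exists_max_image (fun a => v a ^ 2) hne
  have hvi : 0 < v i ^ 2 := by
    by_contra h
    push Not at h
    have : T s v ≤ 0 := Finset.sum_nonpos fun a ha => (himax a ha).trans h
    linarith
  have hr : ∀ a ∈ s, v a ≠ 0 → v a ^ 2 = v i ^ 2 := by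
    intro a ha hva
    by_cases h : a = i
    · rw [h]
    · exact (hmaxcase i hi himax a (Finset.mem_erase.2 ⟨h, ha⟩) hva).1
  refine ⟨v i ^ 2, hvi, hr, ?_⟩
  intro a ha b hb hab hva hvb
  have h1 := (hmaxcase a ha (fun c hc => by rw [hr a ha hva]; exact himax c hc) b
    (Finset.mem_erase.2 ⟨hab.symm, hb⟩) hvb).2
  rw [hr a ha hva, hr b hb hvb] at h1
  rw [h1]; ring

/-! ### Signed sums of `n + 1` unit vectors in dimension `n` -/

/-- the off-diagonal part of the Gram matrix -/
noncomputable def gram {n : ℕ} {ι : Type*} [DecidableEq ι] (u : ι → E n) : ι → ι → ℝ :=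
  fun a b => if a = b then 0 else inner ℝ (u a) (u b)

lemma gram_symm {n : ℕ} (u : ι → E n) : ∀ a b, gram u a b = gram u b a := by
  intro a b
  simp only [gram, eq_comm (a := a) (b := b), real_inner_comm]

lemma gram_diag {n : ℕ} (u : ι → E n) : ∀ a, gram u a a = 0 := fun a => by simp [gram]

lemma gram_ne {n : ℕ} (u : ι → E n) {a b : ι} (h : a ≠ b) : gram u a b = inner ℝ (u a) (u b) := by
  simp [gram, h]

lemma norm_sq_sum {n : ℕ} (u : ι → E n) (s : Finset ι) (hu : ∀ i, ‖u i‖ = 1) (x : ι → ℝ) :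
    ‖∑ i ∈ s, x i • u i‖ ^ 2 = T s x + q s (gram u) x := by
  rw [← real_inner_self_eq_norm_sq, sum_inner]
  unfold q T
  rw [← Finset.sum_add_distrib]
  refine Finset.sum_congr rfl fun a ha => ?_
  rw [inner_sum]
  have h1 : ∀ b, inner ℝ (x a • u a) (x b • u b) =
      (if a = b then x a ^ 2 else 0) + gram u a b * (x a * x b) := by
    intro b
    rw [inner_smul_left, inner_smul_right]
    by_cases h : a = b
    · subst h
      simp only [gram, if_true, real_inner_self_eq_norm_sq, hu]
      simp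
      ring
    · simp only [gram, if_neg h]
      simp
      ring
  simp only [h1, Finset.sum_add_distrib]
  simp [ha]

omit [DecidableEq ι] in
lemma T_sign {s : Finset ι} {e : ι → ℝ} (he : IsSign e) : T s e = s.card := by
  unfold T
  have : ∀ i, e i ^ 2 = 1 := fun i => by rcases he i with h | h <;> rw [h] <;> norm_num
  simp [this]

/-- a normalised linear dependence between `n + 1` vectors in dimension `n` -/
lemma exists_dep {n : ℕ} (u : Fin (n + 1) → E n) :
    ∃ v : Fin (n + 1) → ℝ, ∑ i, v i • u i = 0 ∧ T Finset.univ v = 1 := by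
  obtain ⟨v, hv0, i, hi⟩ : ∃ v : Fin (n + 1) → ℝ, ∑ i, v i • u i = 0 ∧ ∃ i, v i ≠ 0 := by
    have h : ¬ LinearIndependent ℝ u := by
      intro h
      have := h.fintype_card_le_finrank
      simp at this
    exact Fintype.not_linearIndependent_iff.1 h
  have hT : 0 < T Finset.univ v :=
    Finset.sum_pos' (fun _ _ => sq_nonneg _) ⟨i, Finset.mem_univ _, by positivity⟩
  set r := Real.sqrt (T Finset.univ v) with hr
  have hr2 : r ^ 2 = T Finset.univ v := Real.sq_sqrt hT.le
  have hr0 : 0 < r := Real.sqrt_pos.2 hT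
  refine ⟨fun i => r⁻¹ * v i, ?_, ?_⟩
  · simp only [mul_smul, ← Finset.smul_sum, hv0, smul_zero]
  · unfold T
    simp only [mul_pow, ← Finset.mul_sum]
    change _ * T Finset.univ v = 1
    rw [← hr2]
    field_simp

lemma q_dep {n : ℕ} (u : Fin (n + 1) → E n) (hu : ∀ i, ‖u i‖ = 1) {v : Fin (n + 1) → ℝ}
    (hv : ∑ i, v i • u i = 0) (hT : T Finset.univ v = 1) : q Finset.univ (gram u) v = -1 := by
  have := norm_sq_sum u Finset.univ hu v
  rw [hv, norm_zero, hT] at this
  linarith

lemma exists_signs {n : ℕ} (u : Fin (n + 1) → E n) (hu : ∀ i, ‖u i‖ = 1) :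
    ∃ e : Fin (n + 1) → ℝ, IsSign e ∧ (n : ℝ) + 2 ≤ ‖∑ i, e i • u i‖ ^ 2 := by
  obtain ⟨v, hv0, hT⟩ := exists_dep u
  have hqv := q_dep u hu hv0 hT
  by_contra hcon
  push Not at hcon
  -- the maximum over sign vectors is attained
  have hfin : Set.Finite {e : Fin (n + 1) → ℝ | IsSign e} := by
    refine (Set.Finite.pi' (fun _ : Fin (n + 1) => (Set.toFinite ({1, -1} : Set ℝ)))).subset ?_
    intro e he a
    simpa using he a
  obtain ⟨e, he, hmax⟩ := Set.exists_max_image _ (fun e => q Finset.univ (gram u) e) hfin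
    ⟨fun _ => 1, fun _ => Or.inl rfl⟩
  have h1 := main (n + 1) Finset.univ (by simp) (gram u) (gram_symm u) (gram_diag u)
    (q Finset.univ (gram u) e) hmax v
  rw [hqv, hT] at h1
  have h3 := norm_sq_sum u Finset.univ hu e
  rw [T_sign he] at h3
  have h5 := hcon e he
  rw [h3] at h5
  simp at h5
  linarith

/-- `w` consists of unit vectors; the `w i` with `i ∈ S` are the vertices of a regular simplex with
centre `0`, their number being odd and at least `3`, and every other `w i` is orthogonal to all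
the remaining ones -/
def Mixed {n : ℕ} (w : Fin (n + 1) → E n) (S : Finset (Fin (n + 1))) : Prop :=
  (∀ i, ‖w i‖ = 1) ∧ Odd S.card ∧ 3 ≤ S.card ∧
    (∀ i ∈ S, ∀ j ∈ S, i ≠ j → inner ℝ (w i) (w j) = -1 / ((S.card : ℝ) - 1)) ∧
    ∀ i ∉ S, ∀ j, j ≠ i → inner ℝ (w i) (w j) = 0

/-- the form on a regular simplex -/
lemma q_simplex {n : ℕ} {w : ι → E n} {S : Finset ι} {t : ℝ}
    (hS : ∀ i ∈ S, ∀ j ∈ S, i ≠ j → inner ℝ (w i) (w j) = t) (x : ι → ℝ) :
    q S (gram w) x = t * ((∑ i ∈ S, x i) ^ 2 - T S x) := by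
  unfold q T
  rw [pow_two, Finset.sum_mul, ← Finset.sum_sub_distrib, Finset.mul_sum]
  refine Finset.sum_congr rfl fun a ha => ?_
  rw [Finset.mul_sum]
  have h1 : ∀ b ∈ S, gram w a b * (x a * x b) = t * (x a * x b) -
      (if a = b then t * x a ^ 2 else 0) := by
    intro b hb
    by_cases h : a = b
    · subst h; simp [gram]; ring
    · simp [gram, h, hS a ha b hb h]
  rw [Finset.sum_congr rfl h1, Finset.sum_sub_distrib, ← Finset.mul_sum]
  simp [ha]
  ring

/-- the sign vector which is `1` on `A` and `-1` elsewhere -/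
noncomputable def sg (A : Finset ι) : ι → ℝ := fun a => if a ∈ A then 1 else -1

lemma sg_sign (A : Finset ι) : IsSign (sg A) := fun a => by
  unfold sg; split_ifs <;> simp

lemma sum_sg {A S : Finset ι} (h : A ⊆ S) : ∑ a ∈ S, sg A a = 2 * (A.card : ℝ) - S.card := by
  unfold sg
  rw [Finset.sum_ite]
  have h1 : S.filter (fun a => a ∈ A) = A := by
    ext a; simp only [Finset.mem_filter]; exact ⟨fun h => h.2, fun ha => ⟨h ha, ha⟩⟩
  have h2 : S.filter (fun a => ¬ a ∈ A) = S \ A := by
    ext a; simp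
  rw [h1, h2]
  simp [Finset.card_sdiff_of_subset h, Nat.cast_sub (Finset.card_le_card h)]
  ring

/-- a sign vector agrees on `S` with some `sg A`, `A ⊆ S` -/
lemma sum_sign {S : Finset ι} {e : ι → ℝ} (he : IsSign e) :
    ∃ p : ℕ, ∑ a ∈ S, e a = 2 * (p : ℝ) - S.card := by
  classical
  refine ⟨(S.filter (fun a => e a = 1)).card, ?_⟩
  rw [← sum_sg (Finset.filter_subset _ S)]
  refine Finset.sum_congr rfl fun a ha => ?_
  unfold sg
  rcases he a with h | h
  · simp [ha, h]
  · have : ¬ ((-1 : ℝ) = 1) := by norm_num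
    simp [h, this]

/-- squared length of a signed sum of the vertices of the simplex -/
lemma norm_simplex {n : ℕ} {w : ι → E n} {S : Finset ι} (hw : ∀ i, ‖w i‖ = 1)
    (hS : ∀ i ∈ S, ∀ j ∈ S, i ≠ j → inner ℝ (w i) (w j) = -1 / ((S.card : ℝ) - 1))
    {e : ι → ℝ} (he : IsSign e) :
    ‖∑ i ∈ S, e i • w i‖ ^ 2 =
      (S.card : ℝ) + (S.card - (∑ i ∈ S, e i) ^ 2) / ((S.card : ℝ) - 1) := by
  rw [norm_sq_sum w S hw, q_simplex hS, T_sign he]
  ring

lemma step_signs {n : ℕ} (w : ι → E n) (R : Finset ι) (hw : ∀ i, ‖w i‖ = 1) :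
    ∃ e, IsSign e ∧ (R.card : ℝ) ≤ ‖∑ i ∈ R, e i • w i‖ ^ 2 := by
  obtain ⟨e, he, h⟩ := exists_nonneg (gram_symm w) (gram_diag w) R
  exact ⟨e, he, by rw [norm_sq_sum w R hw, T_sign he]; linarith⟩

/-- if all signed sums over `R` have square at most `|R|` then the vectors are orthogonal -/
lemma orthogonal_of_le {n : ℕ} [Finite ι] (w : ι → E n) (R : Finset ι) (hw : ∀ i, ‖w i‖ = 1)
    (h : ∀ e, IsSign e → ‖∑ i ∈ R, e i • w i‖ ^ 2 ≤ R.card) :
    ∀ i ∈ R, ∀ j ∈ R, i ≠ j → inner ℝ (w i) (w j) = 0 := by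
  have h1 := main R.card R rfl (gram w) (gram_symm w) (gram_diag w) 0 (fun e he => by
    have := h e he
    rw [norm_sq_sum w R hw, T_sign he] at this
    linarith)
  intro i hi j hj hij
  have h2 : ∀ t : ℝ, 0 ≤ 2 * t * inner ℝ (w i) (w j) := by
    intro t
    have h3 := h1 (Pi.single i 1 + Pi.single j t)
    have h4 := norm_sq_sum w R hw (Pi.single i 1 + Pi.single j t)
    have h5 : ∑ k ∈ R, (Pi.single i (1 : ℝ) + Pi.single j t : ι → ℝ) k • w k = w i + t • w j := by
      simp only [Pi.add_apply, add_smul, Finset.sum_add_distrib, Pi.single_apply, ite_smul,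
        one_smul, zero_smul, Finset.sum_ite_eq', if_pos hi, if_pos hj]
    have h6 : T R (Pi.single i (1 : ℝ) + Pi.single j t : ι → ℝ) = 1 + t ^ 2 := by
      unfold T
      have : ∀ k, (Pi.single i (1 : ℝ) + Pi.single j t : ι → ℝ) k ^ 2 =
          (if k = i then 1 else 0) + (if k = j then t ^ 2 else 0) := by
        intro k
        simp only [Pi.add_apply, Pi.single_apply]
        by_cases hk : k = i
        · have : k ≠ j := fun h => hij (hk.symm.trans h)
          simp [hk, hij]
        · by_cases hk' : k = j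
          · simp [hk', hij.symm]
          · simp [hk, hk']
      simp only [this, Finset.sum_add_distrib, Finset.sum_ite_eq', if_pos hi, if_pos hj]
    rw [h5, h6, norm_add_sq_real, hw i, norm_smul, hw j, inner_smul_right] at h4
    have h7 : (‖t‖ * 1) ^ 2 = t ^ 2 := by rw [mul_one, Real.norm_eq_abs, sq_abs]
    rw [h7] at h4
    linarith
  have h8 := h2 1
  have h9 := h2 (-1)
  linarith

/-- **Structure of the extremal systems.** -/
theorem structure_of_le {n : ℕ} (u : Fin (n + 1) → E n) (hu : ∀ i, ‖u i‖ = 1)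
    (h : ∀ e, IsSign e → ‖∑ i, e i • u i‖ ^ 2 ≤ (n : ℝ) + 2) :
    ∃ τ : Fin (n + 1) → ℝ, IsSign τ ∧ ∃ S, Mixed (fun i => τ i • u i) S := by
  classical
  obtain ⟨v, hv0, hT⟩ := exists_dep u
  have hqv := q_dep u hu hv0 hT
  have hm : ∀ e : Fin (n + 1) → ℝ, IsSign e → q Finset.univ (gram u) e ≤ 1 := by
    intro e he
    have h1 := h e he
    rw [norm_sq_sum u Finset.univ hu, T_sign he] at h1
    simp at h1
    linarith
  obtain ⟨r, hr0, hr, hB⟩ := main_eq (gram_symm u) (gram_diag u) one_pos hm hT hqv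
  set S : Finset (Fin (n + 1)) := Finset.univ.filter (fun a => v a ≠ 0) with hSdef
  have hmem : ∀ a, a ∈ S ↔ v a ≠ 0 := fun a => by simp [hSdef]
  have hK : (S.card : ℝ) * r = 1 := by
    rw [← hT]
    unfold T
    rw [← Finset.sum_subset (Finset.subset_univ S) (fun a _ ha => by
      have : v a = 0 := by
        by_contra h; exact ha ((hmem a).2 h)
      rw [this]; norm_num)]
    rw [Finset.sum_congr rfl (fun a ha => hr a (Finset.mem_univ a) ((hmem a).1 ha))]
    simp
  have hK1 : S.card ≠ 0 := by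
    intro h0; rw [h0] at hK; simp at hK
  have hK2 : S.card ≠ 1 := by
    intro h1
    obtain ⟨a, ha⟩ := Finset.card_eq_one.1 h1
    have h2 : ∑ i, v i • u i = v a • u a := by
      apply Finset.sum_eq_single a
      · intro b _ hb
        have hbS : b ∉ S := by rw [ha]; simpa using hb
        have : v b = 0 := by
          by_contra h; exact hbS ((hmem b).2 h)
        rw [this, zero_smul]
      · intro h; exact absurd (Finset.mem_univ a) h
    rw [hv0] at h2
    rcases smul_eq_zero.1 h2.symm with h3 | h3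
    · exact (hmem a).1 (by rw [ha]; simp) h3
    · have := hu a
      rw [h3, norm_zero] at this
      norm_num at this
  have hK2' : 2 ≤ S.card := by omega
  have hKr : (2 : ℝ) ≤ S.card := by exact_mod_cast hK2'
  have hr1 : r = 1 / S.card := by field_simp; linarith
  -- signs
  set τ : Fin (n + 1) → ℝ := fun a => if v a < 0 then -1 else 1 with hτdef
  have hτ : IsSign τ := fun a => by
    by_cases h1 : v a < 0
    · right; simp [hτdef, h1]
    · left; simp [hτdef, h1]
  have hτ2 : ∀ a, τ a * τ a = 1 := fun a => by rcases hτ a with h | h <;> rw [h] <;> norm_num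
  set w : Fin (n + 1) → E n := fun i => τ i • u i with hwdef
  have hw : ∀ i, ‖w i‖ = 1 := by
    intro i
    rw [hwdef]
    change ‖τ i • u i‖ = 1
    rw [norm_smul, hu]
    rcases hτ i with h | h <;> rw [h] <;> simp
  have hvτ : ∀ a, τ a * v a = |v a| := by
    intro a
    simp only [hτdef]
    split_ifs with h1
    · rw [abs_of_neg h1]; ring
    · rw [abs_of_nonneg (not_lt.1 h1)]; ring
  have hSin : ∀ i ∈ S, ∀ j ∈ S, i ≠ j → inner ℝ (w i) (w j) = -1 / ((S.card : ℝ) - 1) := by
    intro i hi j hj hij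
    have h1 := hB i (Finset.mem_univ i) j (Finset.mem_univ j) hij ((hmem i).1 hi) ((hmem j).1 hj)
    rw [gram_ne u hij] at h1
    have h2 : inner ℝ (w i) (w j) = τ i * τ j * inner ℝ (u i) (u j) := by
      simp only [hwdef]
      rw [inner_smul_left, inner_smul_right]
      simp
      ring
    have h3 : |v i| * |v j| = r := by
      have h4 : |v i| ^ 2 = r := by rw [sq_abs]; exact hr i (Finset.mem_univ i) ((hmem i).1 hi)
      have h5 : |v j| ^ 2 = r := by rw [sq_abs]; exact hr j (Finset.mem_univ j) ((hmem j).1 hj)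
      have h6 : |v i| = |v j| := by
        have : |v i| ^ 2 = |v j| ^ 2 := by rw [h4, h5]
        exact (pow_left_inj₀ (abs_nonneg _) (abs_nonneg _) (by norm_num)).1 this
      rw [← h6, ← pow_two, h4]
    have h7 : v i * v j = τ i * τ j * r := by
      rw [← h3, ← hvτ i, ← hvτ j]
      linear_combination (-(v i * v j) * (τ j * τ j)) * hτ2 i - (v i * v j) * hτ2 j
    rw [h7] at h1
    have h8 : inner ℝ (w i) (w j) * (r * (1 - r)) = -1 * r ^ 2 := by
      rw [h2, ← h1]; ring
    have h9 : (S.card : ℝ) - 1 ≠ 0 := by linarith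
    have h10 : r * (1 - r) = r ^ 2 * ((S.card : ℝ) - 1) := by
      rw [hr1]; field_simp
    rw [h10] at h8
    rw [eq_div_iff h9]
    have h11 : r ^ 2 ≠ 0 := by positivity
    have h12 : r ^ 2 * (inner ℝ (w i) (w j) * ((S.card : ℝ) - 1)) = r ^ 2 * (-1) := by
      linarith
    exact mul_left_cancel₀ h11 h12
  -- signed sums of the `w i`
  have hwle : ∀ e, IsSign e → ‖∑ i, e i • w i‖ ^ 2 ≤ (n : ℝ) + 2 := by
    intro e he
    have h1 := h (fun i => e i * τ i) (fun i => by
      rcases he i with h | h <;> rcases hτ i with h' | h' <;> simp [h, h'])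
    simpa only [mul_smul] using h1
  have hcard : (S.card : ℝ) + (Sᶜ.card : ℝ) = n + 1 := by
    have := Finset.card_add_card_compl S
    rw [Fintype.card_fin] at this
    exact_mod_cast this
  have hsplit : ∀ e e', IsSign e → IsSign e' →
      ‖∑ i ∈ S, e i • w i + ∑ i ∈ Sᶜ, e' i • w i‖ ^ 2 ≤ (n : ℝ) + 2 := by
    intro e e' he he'
    have h1 := hwle (fun i => if i ∈ S then e i else e' i) (fun i => by
      by_cases hi : i ∈ S
      · simpa [hi] using he i
      · simpa [hi] using he' i)
    rw [← Finset.sum_add_sum_compl S] at h1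
    have h2 : ∑ i ∈ S, (if i ∈ S then e i else e' i) • w i = ∑ i ∈ S, e i • w i :=
      Finset.sum_congr rfl fun i hi => by rw [if_pos hi]
    have h3 : ∑ i ∈ Sᶜ, (if i ∈ S then e i else e' i) • w i = ∑ i ∈ Sᶜ, e' i • w i :=
      Finset.sum_congr rfl fun i hi => by rw [if_neg (Finset.mem_compl.1 hi)]
    rw [h2, h3] at h1
    exact h1
  have hneg : ∀ e : Fin (n + 1) → ℝ, IsSign e → IsSign (fun i => - e i) := by
    intro e he i
    rcases he i with h | h
    · right; simp [h]
    · left; simp [h]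
  have hnegsum : ∀ (e : Fin (n + 1) → ℝ) (R : Finset (Fin (n + 1))),
      ∑ i ∈ R, (- e i) • w i = - ∑ i ∈ R, e i • w i := by
    intro e R; simp [neg_smul, Finset.sum_neg_distrib]
  have hpar : ∀ e e', IsSign e → IsSign e' →
      ‖∑ i ∈ S, e i • w i‖ ^ 2 + ‖∑ i ∈ Sᶜ, e' i • w i‖ ^ 2 ≤ (n : ℝ) + 2 := by
    intro e e' he he'
    have h1 := hsplit e e' he he'
    have h2 := hsplit e (fun i => - e' i) he (hneg e' he')
    rw [hnegsum] at h2
    rw [norm_add_sq_real] at h1 h2
    rw [inner_neg_right, norm_neg] at h2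
    linarith
  obtain ⟨e0, he0, hR0⟩ := step_signs w Sᶜ hw
  have hK1pos : (0 : ℝ) < (S.card : ℝ) - 1 := by linarith
  have hone : ∀ e : Fin (n + 1) → ℝ, IsSign e → 1 ≤ (∑ i ∈ S, e i) ^ 2 := by
    intro e he
    have h1 := hpar e e0 he he0
    rw [norm_simplex hw hSin he] at h1
    have h2 : ((S.card : ℝ) - (∑ i ∈ S, e i) ^ 2) / ((S.card : ℝ) - 1) ≤ 1 := by linarith
    rw [div_le_one hK1pos] at h2
    linarith
  have hodd : Odd S.card := by
    by_contra hne
    rw [Nat.not_odd_iff_even] at hne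
    obtain ⟨p, hp⟩ := hne
    obtain ⟨A, hA, hAc⟩ := Finset.exists_subset_card_eq (show p ≤ S.card by omega)
    have h1 := hone (sg A) (sg_sign A)
    rw [sum_sg hA, hAc, hp] at h1
    push_cast at h1
    ring_nf at h1
    norm_num at h1
  obtain ⟨k, hk⟩ := id hodd
  have hk1 : 1 ≤ k := by omega
  have hbal : ∀ A ⊆ S, A.card = k → ‖∑ i ∈ S, sg A i • w i‖ ^ 2 = (S.card : ℝ) + 1 := by
    intro A hA hAc
    rw [norm_simplex hw hSin (sg_sign A), sum_sg hA, hAc, hk]
    have : ((2 * k + 1 : ℕ) : ℝ) - 1 ≠ 0 := by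
      push_cast
      have : (1 : ℝ) ≤ k := by exact_mod_cast hk1
      linarith
    field_simp
    push_cast
    ring
  obtain ⟨A0, hA0, hA0c⟩ := Finset.exists_subset_card_eq (show k ≤ S.card by omega)
  have hRle : ∀ e, IsSign e → ‖∑ i ∈ Sᶜ, e i • w i‖ ^ 2 ≤ (Sᶜ.card : ℝ) := by
    intro e he
    have h1 := hpar (sg A0) e (sg_sign A0) he
    rw [hbal A0 hA0 hA0c] at h1
    linarith
  have hRorth := orthogonal_of_le w Sᶜ hw hRle
  have hReq : ∀ e, IsSign e → ‖∑ i ∈ Sᶜ, e i • w i‖ ^ 2 = (Sᶜ.card : ℝ) := by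
    intro e he
    rw [norm_sq_sum w Sᶜ hw, T_sign he]
    have : q Sᶜ (gram w) e = 0 := by
      unfold q
      refine Finset.sum_eq_zero fun a ha => Finset.sum_eq_zero fun b hb => ?_
      by_cases hab : a = b
      · rw [hab, gram_diag, zero_mul]
      · rw [gram_ne w hab, hRorth a ha b hb hab, zero_mul]
    rw [this, add_zero]
  have hcross : ∀ A ⊆ S, A.card = k → ∀ e, IsSign e →
      inner ℝ (∑ i ∈ S, sg A i • w i) (∑ i ∈ Sᶜ, e i • w i) = 0 := by
    intro A hA hAc e he
    have h1 := hsplit (sg A) e (sg_sign A) he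
    have h2 := hsplit (sg A) (fun i => - e i) (sg_sign A) (hneg e he)
    rw [hnegsum] at h2
    rw [norm_add_sq_real, hbal A hA hAc] at h1 h2
    rw [inner_neg_right, norm_neg] at h2
    rw [hReq e he] at h1 h2
    linarith
  have hcross2 : ∀ A ⊆ S, A.card = k → ∀ r ∉ S, inner ℝ (∑ i ∈ S, sg A i • w i) (w r) = 0 := by
    intro A hA hAc r hr'
    have h1 := hcross A hA hAc (fun _ => 1) (fun _ => Or.inl rfl)
    have h2 := hcross A hA hAc (fun i => if i = r then -1 else 1) (fun i => by
      by_cases hi : i = r <;> simp [hi])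
    have h3 : ∑ i ∈ Sᶜ, (1 : ℝ) • w i - ∑ i ∈ Sᶜ, (if i = r then (-1 : ℝ) else 1) • w i =
        (2 : ℝ) • w r := by
      rw [← Finset.sum_sub_distrib, Finset.sum_eq_single r]
      · rw [if_pos rfl, ← sub_smul]; norm_num
      · intro b _ hb
        rw [if_neg hb, sub_self]
      · intro hh
        exact absurd (Finset.mem_compl.2 hr') hh
    have h4 : inner ℝ (∑ i ∈ S, sg A i • w i) ((2 : ℝ) • w r) = 0 := by
      rw [← h3, inner_sub_right, h1, h2, sub_zero]
    rw [inner_smul_right] at h4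
    linarith
  have hexch : ∀ a ∈ S, ∀ b ∈ S, ∀ r ∉ S, inner ℝ (w a) (w r) = inner ℝ (w b) (w r) := by
    intro a ha b hb r hr'
    by_cases hab : a = b
    · rw [hab]
    have hc : k - 1 ≤ ((S.erase a).erase b).card := by
      rw [Finset.card_erase_of_mem (Finset.mem_erase.2 ⟨fun h => hab h.symm, hb⟩),
        Finset.card_erase_of_mem ha]
      omega
    obtain ⟨A', hA', hA'c⟩ := Finset.exists_subset_card_eq hc
    have haA : a ∉ A' := fun h => by
      have := hA' h
      simp at this
    have hbA : b ∉ A' := fun h => by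
      have := hA' h
      simp at this
    have hA'S : A' ⊆ S := fun x hx => by
      have := hA' hx
      simp only [Finset.mem_erase] at this
      exact this.2.2
    have h1 := hcross2 (insert a A') (Finset.insert_subset ha hA'S)
      (by rw [Finset.card_insert_of_notMem haA]; omega) r hr'
    have h2 := hcross2 (insert b A') (Finset.insert_subset hb hA'S)
      (by rw [Finset.card_insert_of_notMem hbA]; omega) r hr'
    have h3 : ∑ i ∈ S, sg (insert a A') i • w i - ∑ i ∈ S, sg (insert b A') i • w i =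
        (2 : ℝ) • (w a - w b) := by
      rw [← Finset.sum_sub_distrib]
      have h4 : ∀ i ∈ S, sg (insert a A') i • w i - sg (insert b A') i • w i =
          (if i = a then (2 : ℝ) • w i else 0) - (if i = b then (2 : ℝ) • w i else 0) := by
        intro i _
        unfold sg
        by_cases hia : i = a
        · subst hia
          rw [if_pos (Finset.mem_insert_self _ _), if_neg (by
            rw [Finset.mem_insert]; push Not; exact ⟨hab, haA⟩), if_pos rfl, if_neg hab,
            ← sub_smul]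
          norm_num
        · by_cases hib : i = b
          · subst hib
            rw [if_neg (by
              rw [Finset.mem_insert]; push Not; exact ⟨hia, hbA⟩),
              if_pos (Finset.mem_insert_self _ _), if_neg hia, if_pos rfl, ← sub_smul]
            norm_num
          · by_cases hiA : i ∈ A'
            · rw [if_pos (Finset.mem_insert_of_mem hiA), if_pos (Finset.mem_insert_of_mem hiA),
                if_neg hia, if_neg hib]
              simp
            · rw [if_neg (by rw [Finset.mem_insert]; push Not; exact ⟨hia, hiA⟩),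
                if_neg (by rw [Finset.mem_insert]; push Not; exact ⟨hib, hiA⟩),
                if_neg hia, if_neg hib]
              simp
      rw [Finset.sum_congr rfl h4, Finset.sum_sub_distrib, Finset.sum_ite_eq', if_pos ha,
        Finset.sum_ite_eq', if_pos hb, smul_sub]
    have h5 : inner ℝ ((2 : ℝ) • (w a - w b)) (w r) = 0 := by
      rw [← h3, inner_sub_left, h1, h2, sub_zero]
    rw [inner_smul_left, inner_sub_left] at h5
    simp at h5
    linarith
  have hsum0 : ∑ i ∈ S, w i = 0 := by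
    have h1 := norm_simplex hw hSin (e := fun _ => 1) (fun _ => Or.inl rfl)
    simp only [one_smul, Finset.sum_const, nsmul_eq_mul, mul_one] at h1
    have h2 : (S.card : ℝ) + ((S.card : ℝ) - (S.card : ℝ) ^ 2) / ((S.card : ℝ) - 1) = 0 := by
      field_simp
      ring
    rw [h2] at h1
    simpa using h1
  have hSR : ∀ a ∈ S, ∀ r ∉ S, inner ℝ (w a) (w r) = 0 := by
    intro a ha r hr'
    have h1 : inner ℝ (∑ i ∈ S, w i) (w r) = 0 := by rw [hsum0, inner_zero_left]
    rw [sum_inner, Finset.sum_congr rfl (fun b hb => hexch b hb a ha r hr'), Finset.sum_const,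
      nsmul_eq_mul] at h1
    rcases mul_eq_zero.1 h1 with h2 | h2
    · linarith
    · exact h2
  refine ⟨τ, hτ, S, hw, hodd, by omega, hSin, ?_⟩
  intro i hi j hji
  by_cases hj : j ∈ S
  · rw [real_inner_comm]; exact hSR j hj i hi
  · exact hRorth i (Finset.mem_compl.2 hi) j (Finset.mem_compl.2 hj) hji.symm

/-- squared length of a signed sum in a `Mixed` system -/
lemma norm_mixed {n : ℕ} {w : Fin (n + 1) → E n} {S : Finset (Fin (n + 1))} (hM : Mixed w S)
    {e : Fin (n + 1) → ℝ} (he : IsSign e) :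
    ‖∑ i, e i • w i‖ ^ 2 =
      (n : ℝ) + 1 + (S.card - (∑ i ∈ S, e i) ^ 2) / ((S.card : ℝ) - 1) := by
  obtain ⟨hw, hodd, h3, hS, hR⟩ := hM
  have h1 : q Finset.univ (gram w) e = q S (gram w) e := by
    unfold q
    rw [← Finset.sum_subset (Finset.subset_univ S) (fun a _ ha => by
      refine Finset.sum_eq_zero fun b _ => ?_
      by_cases hab : a = b
      · rw [hab, gram_diag, zero_mul]
      · rw [gram_ne w hab, hR a ha b (fun h => hab h.symm), zero_mul])]
    refine Finset.sum_congr rfl fun a ha => ?_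
    rw [← Finset.sum_subset (Finset.subset_univ S) (fun b _ hb => by
      have hab : a ≠ b := fun h => hb (h ▸ ha)
      rw [gram_ne w hab, real_inner_comm, hR b hb a hab, zero_mul])]
  rw [norm_sq_sum w Finset.univ hw, T_sign he, h1, q_simplex hS, T_sign he]
  simp
  ring

theorem mixed_le {n : ℕ} {w : Fin (n + 1) → E n} {S : Finset (Fin (n + 1))} (hM : Mixed w S) :
    (∀ e, IsSign e → ‖∑ i, e i • w i‖ ^ 2 ≤ (n : ℝ) + 2) ∧
      ∃ e, IsSign e ∧ ‖∑ i, e i • w i‖ ^ 2 = (n : ℝ) + 2 := by
  obtain ⟨k, hk⟩ := id hM.2.1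
  have hk1 : 1 ≤ k := by have := hM.2.2.1; omega
  have hk1' : (1 : ℝ) ≤ k := by exact_mod_cast hk1
  constructor
  · intro e he
    rw [norm_mixed hM he]
    obtain ⟨p, hp⟩ := sum_sign (S := S) he
    have h1 : (1 : ℝ) ≤ (∑ i ∈ S, e i) ^ 2 := by
      rw [hp, hk]
      have h2 : (1 : ℤ) ≤ (2 * (p : ℤ) - ((2 * k + 1 : ℕ) : ℤ)) ^ 2 := by
        have h3 : (2 * (p : ℤ) - ((2 * k + 1 : ℕ) : ℤ)) ≠ 0 := by omega
        have : 0 < (2 * (p : ℤ) - ((2 * k + 1 : ℕ) : ℤ)) ^ 2 := by positivity
        omega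
      exact_mod_cast h2
    have h2 : ((S.card : ℝ) - (∑ i ∈ S, e i) ^ 2) / ((S.card : ℝ) - 1) ≤ 1 := by
      rw [div_le_one (by rw [hk]; push_cast; linarith)]
      linarith
    linarith
  · obtain ⟨A, hA, hAc⟩ := Finset.exists_subset_card_eq (show k ≤ S.card by omega)
    refine ⟨sg A, sg_sign A, ?_⟩
    rw [norm_mixed hM (sg_sign A), sum_sg hA, hAc, hk]
    have : ((2 * k + 1 : ℕ) : ℝ) - 1 ≠ 0 := by push_cast; linarith
    field_simp
    push_cast
    ring

/-- the distance from `c` for a choice of signs is at most `M` -/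
lemma le_M {n : ℕ} {U : Fin (n + 1) → Finset (E n)} {u : Fin (n + 1) → E n} {c : E n}
    (hu : ∀ i, u i ∈ U i) (hu' : ∀ i, -u i ∈ U i) {f : Fin (n + 1) → ℝ} (hf : IsSign f) :
    ‖(∑ i, f i • u i) - c‖ ≤ M U c := by
  let s : (i : Fin (n + 1)) → {u : E n // u ∈ U i} := fun i => ⟨f i • u i, by
    rcases hf i with h | h
    · rw [h, one_smul]; exact hu i
    · rw [h, neg_smul, one_smul]; exact hu' i⟩
  exact le_ciSup (f := fun s : (i : Fin (n + 1)) → {u : E n // u ∈ U i} =>
      ‖(∑ i, (s i : E n)) - c‖) (Set.finite_range _).bddAbove s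

/-- from a bound for the distances from `c` to a bound for the lengths -/
lemma norm_le {n : ℕ} {u : Fin (n + 1) → E n} {c : E n} {m : ℝ}
    (h : ∀ f, IsSign f → ‖(∑ i, f i • u i) - c‖ ^ 2 ≤ m) {f : Fin (n + 1) → ℝ} (hf : IsSign f) :
    ‖∑ i, f i • u i‖ ^ 2 + ‖c‖ ^ 2 ≤ m := by
  have h1 := h f hf
  have h2 := h (fun i => - f i) (fun i => by
    rcases hf i with h | h
    · right; simp [h]
    · left; simp [h])
  have h3 : ∑ i, (- f i) • u i = - ∑ i, f i • u i := by
    simp [neg_smul, Finset.sum_neg_distrib]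
  rw [h3, norm_sub_sq_real, norm_neg, inner_neg_left] at h2
  rw [norm_sub_sq_real] at h1
  linarith

/-- the inequality for families which contain an antipodal pair -/
theorem key {n : ℕ} (U : Fin (n + 1) → Finset (E n)) (c : E n)
    (hU : ∀ i, ∃ u ∈ U i, ‖u‖ = 1 ∧ -u ∈ U i) : Real.sqrt (n + 2) ≤ M U c := by
  choose u huU hu hu' using hU
  obtain ⟨e, he, h⟩ := exists_signs u hu
  have hM0 : 0 ≤ M U c := (norm_nonneg _).trans (le_M huU hu' he)
  have h1 : ∀ f, IsSign f → ‖(∑ i, f i • u i) - c‖ ^ 2 ≤ M U c ^ 2 := fun f hf =>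
    pow_le_pow_left₀ (norm_nonneg _) (le_M huU hu' hf) 2
  have h2 := norm_le h1 he
  rw [Real.sqrt_le_left hM0]
  nlinarith [sq_nonneg ‖c‖]

/-- the case of equality -/
theorem key_eq {n : ℕ} (U : Fin (n + 1) → Finset (E n)) (c : E n) (u : Fin (n + 1) → E n)
    (hu : ∀ i, ‖u i‖ = 1) (hU : ∀ i, (U i : Set (E n)) = {u i, -u i}) :
    M U c = Real.sqrt (n + 2) ↔
      c = 0 ∧ ∃ w S, Mixed w S ∧ ∀ i, (U i : Set (E n)) = {w i, -w i} := by
  have hmem : ∀ i, u i ∈ U i := fun i => by
    have : u i ∈ (U i : Set (E n)) := by rw [hU i]; simp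
    exact this
  have hmem' : ∀ i, -u i ∈ U i := fun i => by
    have : -u i ∈ (U i : Set (E n)) := by rw [hU i]; simp
    exact this
  constructor
  · intro hM
    have h1 : ∀ f, IsSign f → ‖(∑ i, f i • u i) - c‖ ^ 2 ≤ (n : ℝ) + 2 := fun f hf => by
      have h2 := le_M (c := c) hmem hmem' hf
      rw [hM] at h2
      have h3 := pow_le_pow_left₀ (norm_nonneg _) h2 2
      rwa [Real.sq_sqrt (by positivity)] at h3
    obtain ⟨e, he, h2⟩ := exists_signs u hu
    have h3 := norm_le h1 he
    have hc : ‖c‖ ^ 2 = 0 := le_antisymm (by linarith) (sq_nonneg _)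
    have hc0 : c = 0 := by simpa using hc
    refine ⟨hc0, ?_⟩
    obtain ⟨τ, hτ, S, hS⟩ := structure_of_le u hu (fun f hf => by
      have := norm_le h1 hf
      rw [hc] at this
      linarith)
    refine ⟨fun i => τ i • u i, S, hS, fun i => ?_⟩
    rw [hU i]
    rcases hτ i with h | h
    · simp [h]
    · simp only [h, neg_smul, one_smul, neg_neg]
      exact Set.pair_comm _ _
  · rintro ⟨rfl, w, S, hS, hwU⟩
    obtain ⟨hle, e, he, heq⟩ := mixed_le hS
    have hwm : ∀ i, w i ∈ U i := fun i => by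
      have : w i ∈ (U i : Set (E n)) := by rw [hwU i]; simp
      exact this
    have hwm' : ∀ i, -w i ∈ U i := fun i => by
      have : -w i ∈ (U i : Set (E n)) := by rw [hwU i]; simp
      exact this
    apply le_antisymm
    · have : ∀ i : Fin (n + 1), Nonempty {v : E n // v ∈ U i} := fun i => ⟨⟨w i, hwm i⟩⟩
      apply ciSup_le
      intro s
      apply Real.le_sqrt_of_sq_le
      have hs : ∀ i : Fin (n + 1), ∃ e : ℝ, (e = 1 ∨ e = -1) ∧ (s i : E n) = e • w i := by
        intro i
        have h : (s i : E n) ∈ (U i : Set (E n)) := (s i).2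
        rw [hwU i] at h
        rcases h with h | h
        · exact ⟨1, Or.inl rfl, by rw [h, one_smul]⟩
        · refine ⟨-1, Or.inr rfl, ?_⟩
          rw [Set.mem_singleton_iff] at h
          rw [h, neg_smul, one_smul]
      choose f hf hfs using hs
      have h1 : (∑ i, (s i : E n)) = ∑ i, f i • w i := Finset.sum_congr rfl fun i _ => hfs i
      rw [sub_zero, h1]
      exact hle f hf
    · have h1 := le_M (c := (0 : E n)) hwm hwm' he
      rw [sub_zero] at h1
      refine le_trans (le_of_eq ?_) h1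
      rw [← heq, Real.sqrt_sq (norm_nonneg _)]

/-- The inequality of Q1 holds if each of the `n + 1` balanced families contains some vector
together with its opposite. If each family has exactly two elements, equality holds exactly for
`c = 0` and the `Mixed` systems. -/
theorem result :
    (∀ (n : ℕ) (U : Fin (n + 1) → Finset (E n)) (c : E n), (∀ i, Balanced (U i)) →
      (∀ i, ∃ u ∈ U i, -u ∈ U i) → Real.sqrt (n + 2) ≤ M U c) ∧
    (∀ (n : ℕ) (U : Fin (n + 1) → Finset (E n)) (c : E n), (∀ i, Balanced (U i)) →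
      (∀ i, (U i).card = 2) → Real.sqrt (n + 2) ≤ M U c ∧
        (M U c = Real.sqrt (n + 2) ↔
          c = 0 ∧ ∃ w S, Mixed w S ∧ ∀ i, (U i : Set (E n)) = {w i, -w i})) := by
  have h1 : ∀ (n : ℕ) (U : Fin (n + 1) → Finset (E n)) (c : E n), (∀ i, Balanced (U i)) →
      (∀ i, ∃ u ∈ U i, -u ∈ U i) → Real.sqrt (n + 2) ≤ M U c := by
    intro n U c hB h
    refine key U c fun i => ?_
    obtain ⟨u, hu, hu'⟩ := h i
    exact ⟨u, hu, (hB i).2.2.1 u hu, hu'⟩
  refine ⟨h1, fun n U c hB h2 => ?_⟩
  have h3 : ∀ i, ∃ a : E n, ‖a‖ = 1 ∧ (U i : Set (E n)) = {a, -a} := by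
    intro i
    obtain ⟨a, b, hab, hU⟩ := Finset.card_eq_two.1 (h2 i)
    obtain ⟨-, -, hn, l, hl, hs⟩ := hB i
    rw [hU] at hn hl hs
    have ha := hn a (by simp)
    have hb := hn b (by simp)
    have hla := hl a (by simp)
    have hlb := hl b (by simp)
    rw [Finset.sum_pair hab] at hs
    have h3 : l a • a = -(l b • b) := eq_neg_of_add_eq_zero_left hs
    have h4 : l a = l b := by
      have := congrArg norm h3
      rw [norm_neg, norm_smul, norm_smul, ha, hb, Real.norm_of_nonneg hla.le,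
        Real.norm_of_nonneg hlb.le] at this
      linarith
    have h5 : l b • (b + a) = 0 := by
      rw [smul_add, add_comm]
      nth_rw 1 [← h4]
      exact hs
    have h6 : b + a = 0 := by
      rcases smul_eq_zero.1 h5 with h | h
      · exact absurd h hlb.ne'
      · exact h
    have h7 : b = -a := eq_neg_iff_add_eq_zero.2 h6
    refine ⟨a, ha, ?_⟩
    rw [hU, h7]
    simp
  choose u hu hUu using h3
  refine ⟨h1 n U c hB fun i => ⟨u i, ?_, ?_⟩, key_eq U c u hu hUu⟩
  · have : u i ∈ (U i : Set (E n)) := by rw [hUu i]; simp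
    exact this
  · have : -u i ∈ (U i : Set (E n)) := by rw [hUu i]; simp
    exact this

end Pool.Agent.Results.MP_4da8b1_gt.AntipodalEquality
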