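import Mathlib

open scoped BigOperators

namespace Pool.Agent.Results.MP_4da8b1_gt.EqualityFails

/-- Euclidean space of dimension `n` -/
abbrev E (n : ℕ) := EuclideanSpace ℝ (Fin n)

/-- a balanced family: a set of `k` unit vectors, `2 ≤ k ≤ n + 1`, such that the origin is a
combination of the vectors of the set with all coefficients strictly positive -/
def Balanced {n : ℕ} (U : Finset (E n)) : Prop :=
  2 ≤ U.card ∧ U.card ≤ n + 1 ∧ (∀ u ∈ U, ‖u‖ = 1) ∧
    ∃ l : E n → ℝ, (∀ u ∈ U, 0 < l u) ∧ ∑ u ∈ U, l u • u = 0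

/-- the largest distance from `c` to a sum formed by choosing one vector from each family -/
noncomputable def M {n : ℕ} (U : Fin (n + 1) → Finset (E n)) (c : E n) : ℝ :=
  ⨆ s : (i : Fin (n + 1)) → {u : E n // u ∈ U i}, ‖(∑ i, (s i : E n)) - c‖

/-- the indexed points are pairwise at one and the same positive distance; for `m + 1` points this
says that they are the vertices of a regular `m`-dimensional simplex -/
def RegularSimplex {n : ℕ} {ι : Type*} (u : ι → E n) : Prop :=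
  ∃ d : ℝ, 0 < d ∧ ∀ i j, i ≠ j → dist (u i) (u j) = d

/-- the families and the point `c` are as in the list of Q2 (for `n` even and for `n` odd) -/
def Listed {n : ℕ} (U : Fin (n + 1) → Finset (E n)) (c : E n) : Prop :=
  c = 0 ∧ ∃ u : Fin (n + 1) → E n, (∀ i, ‖u i‖ = 1) ∧ (∀ i, (U i : Set (E n)) = {u i, -u i}) ∧
    ∃ σ : Equiv.Perm (Fin (n + 1)),
      (Even n → RegularSimplex (fun i => u (σ i))) ∧
      (Odd n → ∃ k : ℕ, 1 ≤ k ∧ k ≤ (n - 1) / 2 ∧
        RegularSimplex (fun i : {i : Fin (n + 1) // i.val < 2 * k + 1} => u (σ i)) ∧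
        (∀ i j : Fin (n + 1), 2 * k + 1 ≤ i.val → i ≠ j → inner ℝ (u (σ i)) (u (σ j)) = 0))

/-- the statement asked about in Q2 -/
def Q2 : Prop :=
  ∀ n : ℕ, 1 ≤ n → ∀ (U : Fin (n + 1) → Finset (E n)) (c : E n), (∀ i, Balanced (U i)) →
    (M U c = Real.sqrt (n + 2) ↔ Listed U c)

/-! ### The configuration -/

/-- the `m + 3` unit vectors in dimension `m + 2`: three at mutual angles of 120 degrees in a
plane, and an orthonormal basis of the orthogonal complement of the plane -/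
noncomputable def u (m : ℕ) : Fin (m + 3) → E (m + 2) := fun i =>
  WithLp.toLp 2 (Fin.cons (n := m + 2) (α := fun _ => Fin (m + 2) → ℝ)
    (Fin.cons 1 (Fin.cons 0 0))
    (Fin.cons (α := fun _ => Fin (m + 2) → ℝ)
      (Fin.cons (-1/2) (Fin.cons (Real.sqrt 3 / 2) 0))
      (Fin.cons (α := fun _ => Fin (m + 2) → ℝ)
        (Fin.cons (-1/2) (Fin.cons (-(Real.sqrt 3 / 2)) 0))
        (fun j : Fin m => Fin.cons 0 (Fin.cons 0 (Pi.single j 1))))) i)

lemma sq3 : Real.sqrt 3 * Real.sqrt 3 = 3 := Real.mul_self_sqrt (by norm_num)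

lemma u0 (m : ℕ) : u m 0 = WithLp.toLp 2 (Fin.cons 1 (Fin.cons 0 0) : Fin (m + 2) → ℝ) := rfl
lemma u1 (m : ℕ) : u m 1 =
    WithLp.toLp 2 (Fin.cons (-1/2) (Fin.cons (Real.sqrt 3 / 2) 0) : Fin (m + 2) → ℝ) := rfl
lemma u2 (m : ℕ) : u m 2 =
    WithLp.toLp 2 (Fin.cons (-1/2) (Fin.cons (-(Real.sqrt 3 / 2)) 0) : Fin (m + 2) → ℝ) := rfl
lemma us (m : ℕ) (j : Fin m) : u m j.succ.succ.succ =
    WithLp.toLp 2 (Fin.cons 0 (Fin.cons 0 (Pi.single j 1)) : Fin (m + 2) → ℝ) := rfl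

lemma norm_comb (m : ℕ) (e : Fin (m + 3) → ℝ) :
    ‖∑ i, e i • u m i‖ ^ 2 =
      (∑ i, e i ^ 2) - (e 0 * e 1 + e 0 * e 2 + e 1 * e 2) := by
  rw [EuclideanSpace.norm_sq_eq]
  simp only [Real.norm_eq_abs, sq_abs]
  have hc : ∀ j, (∑ i, e i • u m i) j =
      e 0 * u m 0 j + e 1 * u m 1 j + e 2 * u m 2 j +
        ∑ i : Fin m, e i.succ.succ.succ * u m i.succ.succ.succ j := by
    intro j
    rw [Fin.sum_univ_succ, Fin.sum_univ_succ, Fin.sum_univ_succ]
    simp
    ring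
  simp only [hc, u0, u1, u2, us]
  rw [Fin.sum_univ_succ, Fin.sum_univ_succ]
  rw [Fin.sum_univ_succ, Fin.sum_univ_succ, Fin.sum_univ_succ]
  simp [Pi.single_apply]
  nlinarith [sq3]

lemma n02 (m : ℕ) : (0 : Fin (m + 3)) ≠ 2 := by
  intro h
  have h2 := congrArg Fin.val h
  change 0 % (m + 3) = 2 % (m + 3) at h2
  rw [Nat.mod_eq_of_lt (by omega), Nat.mod_eq_of_lt (by omega)] at h2
  omega

lemma n12 (m : ℕ) : (1 : Fin (m + 3)) ≠ 2 := by
  intro h
  have h2 := congrArg Fin.val h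
  change 1 % (m + 3) = 2 % (m + 3) at h2
  rw [Nat.mod_eq_of_lt (by omega), Nat.mod_eq_of_lt (by omega)] at h2
  omega

lemma norm_u (m : ℕ) (i : Fin (m + 3)) : ‖u m i‖ = 1 := by
  have h := norm_comb m (Pi.single i 1)
  have h2 : ∑ j, (Pi.single i (1 : ℝ) : Fin (m + 3) → ℝ) j • u m j = u m i := by
    rw [Finset.sum_eq_single i]
    · simp
    · intro j _ hj; simp [hj]
    · simp
  rw [h2] at h
  have h3 : ∑ j, (Pi.single i (1 : ℝ) : Fin (m + 3) → ℝ) j ^ 2 = 1 := by
    rw [Finset.sum_eq_single i]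
    · simp
    · intro j _ hj; simp [hj]
    · simp
  have h4 : ∀ a b : Fin (m + 3), a ≠ b →
      (Pi.single i (1 : ℝ) : Fin (m + 3) → ℝ) a * (Pi.single i (1 : ℝ) : Fin (m + 3) → ℝ) b = 0 := by
    intro a b hab
    by_cases ha : a = i
    · have : b ≠ i := fun hb => hab (ha.trans hb.symm)
      simp [this]
    · simp [ha]
  rw [h3, h4 0 1 (by simp), h4 0 2 (n02 m), h4 1 2 (n12 m)] at h
  have h5 : 0 ≤ ‖u m i‖ := norm_nonneg _
  nlinarith

/-- signed sums -/
lemma norm_signs (m : ℕ) (e : Fin (m + 3) → ℝ) (he : ∀ i, e i = 1 ∨ e i = -1) :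
    ‖∑ i, e i • u m i‖ ^ 2 ≤ m + 4 := by
  rw [norm_comb]
  have h1 : ∑ i, e i ^ 2 = (m + 3 : ℕ) := by
    rw [Finset.sum_congr rfl (fun i _ => show e i ^ 2 = 1 by
      rcases he i with h | h <;> rw [h] <;> norm_num)]
    simp
  rw [h1]
  push_cast
  rcases he 0 with h | h <;> rcases he 1 with h' | h' <;> rcases he 2 with h'' | h'' <;>
    rw [h, h', h''] <;> norm_num <;> linarith

lemma norm_signs' (m : ℕ) :
    ‖∑ i, (if i = 2 then (-1 : ℝ) else 1) • u m i‖ ^ 2 = m + 4 := by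
  rw [norm_comb]
  have h1 : ∑ i : Fin (m + 3), (if i = 2 then (-1 : ℝ) else 1) ^ 2 = (m + 3 : ℕ) := by
    have h0 : ∀ i : Fin (m + 3), (if i = 2 then (-1 : ℝ) else 1) ^ 2 = 1 := fun i => by
      split_ifs <;> norm_num
    simp only [h0]
    simp
  rw [h1]
  simp only [n02, n12, if_false, if_true]
  push_cast
  ring

/-- inner products with the first vector -/
lemma inner01 (m : ℕ) : inner ℝ (u m 0) (u m 1) = -1/2 := by
  rw [u0, u1, PiLp.inner_apply, Fin.sum_univ_succ, Fin.sum_univ_succ]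
  simp

lemma inner0s (m : ℕ) (j : Fin m) : inner ℝ (u m 0) (u m j.succ.succ.succ) = 0 := by
  rw [u0, us, PiLp.inner_apply, Fin.sum_univ_succ, Fin.sum_univ_succ]
  simp

/-- the two-element families -/
noncomputable def U (m : ℕ) : Fin (m + 3) → Finset (E (m + 2)) := fun i =>
  {u m i, -u m i}

lemma u_ne (m : ℕ) (i : Fin (m + 3)) : u m i ≠ -u m i := by
  intro h
  have h0 : u m i = 0 := by
    have : (2 : ℝ) • u m i = 0 := by
      rw [two_smul]
      nth_rw 2 [h]
      simp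
    simpa using this
  have := norm_u m i
  rw [h0] at this
  simp at this

lemma balanced (m : ℕ) (i : Fin (m + 3)) : Balanced (U m i) := by
  refine ⟨?_, ?_, ?_, ?_⟩
  · rw [U, Finset.card_pair (u_ne m i)]
  · rw [U, Finset.card_pair (u_ne m i)]; omega
  · intro v hv
    simp only [U, Finset.mem_insert, Finset.mem_singleton] at hv
    rcases hv with rfl | rfl
    · exact norm_u m i
    · rw [norm_neg]; exact norm_u m i
  · refine ⟨fun _ => 1, fun _ _ => one_pos, ?_⟩
    rw [U, Finset.sum_pair (u_ne m i)]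
    simp

lemma M_eq (m : ℕ) : M (n := m + 2) (U m) 0 = Real.sqrt (((m + 2 : ℕ) : ℝ) + 2) := by
  have : ∀ i : Fin (m + 2 + 1), Nonempty {v : E (m + 2) // v ∈ U m i} := fun i =>
    ⟨⟨u m i, by simp [U]⟩⟩
  have : Finite ((i : Fin (m + 2 + 1)) → {v : E (m + 2) // v ∈ U m i}) := inferInstance
  apply le_antisymm
  · apply ciSup_le
    intro s
    apply Real.le_sqrt_of_sq_le
    have hs : ∀ i : Fin (m + 3), ∃ e : ℝ, (e = 1 ∨ e = -1) ∧ (s i : E (m + 2)) = e • u m i := by
      intro i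
      have h := (s i).2
      simp only [U, Finset.mem_insert, Finset.mem_singleton] at h
      rcases h with h | h
      · exact ⟨1, Or.inl rfl, by rw [h, one_smul]⟩
      · exact ⟨-1, Or.inr rfl, by rw [h, neg_smul, one_smul]⟩
    choose e he hes using hs
    have h1 : (∑ i, (s i : E (m + 2))) = ∑ i, e i • u m i :=
      Finset.sum_congr rfl fun i _ => hes i
    rw [sub_zero, h1]
    have := norm_signs m e he
    push_cast
    linarith
  · have h2 : Real.sqrt (((m + 2 : ℕ) : ℝ) + 2) =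
        ‖∑ i, (if i = 2 then (-1 : ℝ) else 1) • u m i‖ := by
      rw [← Real.sqrt_sq (norm_nonneg (∑ i, (if i = 2 then (-1 : ℝ) else 1) • u m i)),
        norm_signs']
      push_cast
      ring_nf
    rw [h2]
    let s : (i : Fin (m + 2 + 1)) → {v : E (m + 2) // v ∈ U m i} := fun i =>
      ⟨(if i = 2 then (-1 : ℝ) else 1) • u m i, by
        by_cases h : i = 2
        · simp [U, h]
        · simp [U, h]⟩
    have h3 := le_ciSup (f := fun s : (i : Fin (m + 2 + 1)) → {v : E (m + 2) // v ∈ U m i} =>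
      ‖(∑ i, (s i : E (m + 2))) - 0‖) (Set.finite_range _).bddAbove s
    refine le_trans (le_of_eq ?_) h3
    simp [s]

lemma not_listed (m : ℕ) (hm : 2 ≤ m) (hev : Even m) : ¬ Listed (n := m + 2) (U m) 0 := by
  rintro ⟨-, w, hw1, hw, σ, hσ, -⟩
  obtain ⟨d, -, hd⟩ := hσ (hev.add (by decide))
  have hd' : ∀ i j, i ≠ j → dist (w i) (w j) = d := by
    intro i j hij
    have := hd (σ.symm i) (σ.symm j) (fun h => hij (σ.symm.injective h))
    simpa using this
  have hs : ∀ i : Fin (m + 3), ∃ e : ℝ, (e = 1 ∨ e = -1) ∧ w i = e • u m i := by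
    intro i
    have h : w i ∈ (U m i : Set (E (m + 2))) := by rw [hw i]; simp
    simp only [U, Finset.coe_insert, Finset.coe_singleton, Set.mem_insert_iff,
      Set.mem_singleton_iff] at h
    rcases h with h | h
    · exact ⟨1, Or.inl rfl, by rw [h, one_smul]⟩
    · exact ⟨-1, Or.inr rfl, by rw [h, neg_smul, one_smul]⟩
  choose e he hes using hs
  let j0 : Fin m := ⟨0, by omega⟩
  have ha : dist (w 0) (w 1) ^ 2 = 2 - 2 * inner ℝ (w 0) (w 1) := by
    rw [dist_eq_norm, norm_sub_sq_real, hw1, hw1]; ring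
  have hb : dist (w 0) (w j0.succ.succ.succ) ^ 2 = 2 - 2 * inner ℝ (w 0) (w j0.succ.succ.succ) := by
    rw [dist_eq_norm, norm_sub_sq_real, hw1, hw1]; ring
  rw [hd' _ _ (by simp)] at ha
  rw [hd' _ _ (by simp [Fin.ext_iff])] at hb
  have h1 : inner ℝ (w 0) (w 1) = e 0 * (e 1 * (-1/2)) := by
    rw [hes 0, hes 1, inner_smul_left, inner_smul_right, inner01]; simp
  have h2 : inner ℝ (w 0) (w j0.succ.succ.succ) = 0 := by
    rw [hes 0, hes j0.succ.succ.succ, inner_smul_left, inner_smul_right, inner0s]; simp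
  rw [h1] at ha
  rw [h2] at hb
  rcases he 0 with h | h <;> rcases he 1 with h' | h' <;> rw [h, h'] at ha <;> linarith

/-- For every even `n ≥ 4` there are `n + 1` balanced families in `ℝ ^ n`, all of the form
`{u, -u}`, with `M = √(n + 2)` for `c = 0`, which are not in the list of Q2; so the
characterisation of equality asked about in Q2 is false. -/
theorem result :
    (∀ n : ℕ, Even n → 4 ≤ n → ∃ V : Fin (n + 1) → Finset (E n),
      (∀ i, Balanced (V i)) ∧ M V 0 = Real.sqrt (n + 2) ∧ ¬ Listed V 0) ∧ ¬ Q2 := by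
  have key : ∀ n : ℕ, Even n → 4 ≤ n → ∃ V : Fin (n + 1) → Finset (E n),
      (∀ i, Balanced (V i)) ∧ M V 0 = Real.sqrt (n + 2) ∧ ¬ Listed V 0 := by
    intro n hn h4
    obtain ⟨m, rfl⟩ : ∃ m, n = m + 2 := ⟨n - 2, by omega⟩
    have hm : Even m := by
      rw [Nat.even_iff] at hn ⊢; omega
    exact ⟨U m, balanced m, M_eq m, not_listed m (by omega) hm⟩
  refine ⟨key, fun hQ => ?_⟩
  obtain ⟨V, hV, hM, hL⟩ := key 4 (by decide) le_rfl
  exact hL ((hQ 4 (by norm_num) V 0 hV).1 hM)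

end Pool.Agent.Results.MP_4da8b1_gt.EqualityFails
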