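import Mathlib

open scoped BigOperators

namespace Pool.Agent.Results.MP_4da8b1_gt.GeneralBound

/-- Euclidean space of dimension `n` -/
abbrev E (n : ℕ) := EuclideanSpace ℝ (Fin n)

/-- a balanced family: a set of `k` unit vectors, `2 ≤ k ≤ n + 1`, such that the origin is a
combination of the vectors of the set with all coefficients strictly positive -/
def Balanced {n : ℕ} (U : Finset (E n)) : Prop :=
  2 ≤ U.card ∧ U.card ≤ n + 1 ∧ (∀ u ∈ U, ‖u‖ = 1) ∧
    ∃ l : E n → ℝ, (∀ u ∈ U, 0 < l u) ∧ ∑ u ∈ U, l u • u = 0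

/-- the largest distance from `c` to a sum formed by choosing one vector from each family -/
noncomputable def M {n : ℕ} (U : Fin (n + 1) → Finset (E n)) (c : E n) : ℝ :=
  ⨆ s : (i : Fin (n + 1)) → {u : E n // u ∈ U i}, ‖(∑ i, (s i : E n)) - c‖

/-! ### Quadratic forms with zero diagonal on sign vectors -/

variable {ι : Type*} [DecidableEq ι]

/-- the quadratic form -/
def q (s : Finset ι) (B : ι → ι → ℝ) (x : ι → ℝ) : ℝ := ∑ a ∈ s, ∑ b ∈ s, B a b * (x a * x b)

lemma q_insert {t : Finset ι} {i : ι} (hi : i ∉ t) {B : ι → ι → ℝ} (hs : ∀ a b, B a b = B b a)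
    (hd : ∀ a, B a a = 0) (x : ι → ℝ) :
    q (insert i t) B x = q t B x + 2 * x i * ∑ b ∈ t, B i b * x b := by
  unfold q
  rw [Finset.sum_insert hi, Finset.sum_insert hi, hd, zero_mul, zero_add]
  have h1 : ∀ a ∈ t, ∑ b ∈ insert i t, B a b * (x a * x b) =
      B i a * x a * x i + ∑ b ∈ t, B a b * (x a * x b) := by
    intro a _
    rw [Finset.sum_insert hi, hs a i]
    ring
  rw [Finset.sum_congr rfl h1, Finset.sum_add_distrib, ← Finset.sum_mul]
  have h2 : ∑ b ∈ t, B i b * (x i * x b) = x i * ∑ b ∈ t, B i b * x b := by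
    rw [Finset.mul_sum]
    exact Finset.sum_congr rfl fun b _ => by ring
  rw [h2]
  ring

omit [DecidableEq ι] in
lemma q_congr {s : Finset ι} {B B' : ι → ι → ℝ} {x y : ι → ℝ}
    (hB : ∀ a ∈ s, ∀ b ∈ s, B a b = B' a b) (h : ∀ a ∈ s, x a = y a) : q s B x = q s B' y := by
  unfold q
  refine Finset.sum_congr rfl fun a ha => Finset.sum_congr rfl fun b hb => ?_
  rw [hB a ha b hb, h a ha, h b hb]

/-- a sign vector -/
def IsSign (e : ι → ℝ) : Prop := ∀ a, e a = 1 ∨ e a = -1

/-- some sign vector gives a nonnegative value -/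
lemma exists_nonneg {B : ι → ι → ℝ} (hs : ∀ a b, B a b = B b a) (hd : ∀ a, B a a = 0)
    (s : Finset ι) : ∃ e, IsSign e ∧ 0 ≤ q s B e := by
  induction s using Finset.induction_on with
  | empty => exact ⟨fun _ => 1, fun _ => Or.inl rfl, by simp [q]⟩
  | insert i t hi ih =>
    obtain ⟨e, he, h0⟩ := ih
    rcases le_total 0 (∑ b ∈ t, B i b * e b) with h | h
    · refine ⟨Function.update e i 1, ?_, ?_⟩
      · intro a
        by_cases ha : a = i
        · subst ha; simp
        · rw [Function.update_of_ne ha]; exact he a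
      · have hc : ∀ a ∈ t, Function.update e i 1 a = e a := fun a ha =>
          Function.update_of_ne (fun h' => hi (by rw [← h']; exact ha)) _ _
        rw [q_insert hi hs hd, q_congr (fun _ _ _ _ => rfl) hc, Function.update_self,
          Finset.sum_congr rfl (fun b hb => by rw [hc b hb])]
        linarith
    · refine ⟨Function.update e i (-1), ?_, ?_⟩
      · intro a
        by_cases ha : a = i
        · subst ha; simp
        · rw [Function.update_of_ne ha]; exact he a
      · have hc : ∀ a ∈ t, Function.update e i (-1) a = e a := fun a ha =>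
          Function.update_of_ne (fun h' => hi (by rw [← h']; exact ha)) _ _
        rw [q_insert hi hs hd, q_congr (fun _ _ _ _ => rfl) hc, Function.update_self,
          Finset.sum_congr rfl (fun b hb => by rw [hc b hb])]
        linarith

/-- the kernel after the coordinate `j` is merged into `i` with sign `σ` -/
def merge (B : ι → ι → ℝ) (i j : ι) (σ : ℝ) : ι → ι → ℝ := fun a b =>
  if a = i then (if b = i then 0 else B i b + σ * B j b)
  else if b = i then B i a + σ * B j a else B a b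

lemma merge_symm {B : ι → ι → ℝ} (hs : ∀ a b, B a b = B b a) (i j : ι) (σ : ℝ) :
    ∀ a b, merge B i j σ a b = merge B i j σ b a := by
  intro a b
  unfold merge
  by_cases ha : a = i <;> by_cases hb : b = i <;> simp [ha, hb, hs a b]

lemma merge_diag {B : ι → ι → ℝ} (hd : ∀ a, B a a = 0) (i j : ι) (σ : ℝ) :
    ∀ a, merge B i j σ a a = 0 := by
  intro a
  unfold merge
  by_cases ha : a = i <;> simp [ha, hd]

lemma q_merge {B : ι → ι → ℝ} (hs : ∀ a b, B a b = B b a) (hd : ∀ a, B a a = 0) {i j : ι}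
    {t : Finset ι} (hi : i ∉ t) (σ : ℝ) (x : ι → ℝ) :
    q (insert i t) (merge B i j σ) x =
      q t B x + 2 * x i * (∑ b ∈ t, B i b * x b + σ * ∑ b ∈ t, B j b * x b) := by
  rw [q_insert hi (merge_symm hs i j σ) (merge_diag hd i j σ)]
  have hne : ∀ a ∈ t, a ≠ i := fun a ha h => hi (h ▸ ha)
  congr 1
  · refine q_congr (fun a ha b hb => ?_) (fun _ _ => rfl)
    simp [merge, hne a ha, hne b hb]
  · congr 1
    rw [Finset.mul_sum, ← Finset.sum_add_distrib]
    refine Finset.sum_congr rfl fun b hb => ?_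
    simp [merge, hne b hb]
    ring

/-- the sum of squares -/
def T (s : Finset ι) (x : ι → ℝ) : ℝ := ∑ a ∈ s, x a ^ 2

omit [DecidableEq ι] in
lemma T_nonneg (s : Finset ι) (x : ι → ℝ) : 0 ≤ T s x := Finset.sum_nonneg fun _ _ => sq_nonneg _

/-- a minimiser on the unit sphere -/
lemma exists_min [Finite ι] (s : Finset ι) (hne : s.Nonempty) (B : ι → ι → ℝ) :
    ∃ v : ι → ℝ, T s v = 1 ∧ ∀ x, q s B v * T s x ≤ q s B x := by
  have hK : IsCompact {x : ι → ℝ | T s x = 1 ∧ ∀ a ∉ s, x a = 0} := by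
    refine IsCompact.of_isClosed_subset (isCompact_univ_pi (fun _ : ι => isCompact_Icc (a := (-1 : ℝ)) (b := 1)))
      ?_ ?_
    · refine IsClosed.inter ?_ ?_
      · exact isClosed_eq (by unfold T; fun_prop) continuous_const
      · have : {x : ι → ℝ | ∀ a ∉ s, x a = 0} = ⋂ a, ⋂ (_ : a ∉ s), {x | x a = 0} := by
          ext x; simp
        change IsClosed {x : ι → ℝ | ∀ a ∉ s, x a = 0}
        rw [this]
        exact isClosed_iInter fun a => isClosed_iInter fun _ =>
          isClosed_eq (continuous_apply a) continuous_const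
    · rintro x ⟨h1, h2⟩ a -
      by_cases ha : a ∈ s
      · have h3 : x a ^ 2 ≤ 1 := by
          rw [← h1]
          exact Finset.single_le_sum (f := fun a => x a ^ 2) (fun _ _ => sq_nonneg _) ha
        exact ⟨by nlinarith, by nlinarith⟩
      · rw [h2 a ha]; exact ⟨by norm_num, by norm_num⟩
  obtain ⟨i, hi⟩ := hne
  have hKn : {x : ι → ℝ | T s x = 1 ∧ ∀ a ∉ s, x a = 0}.Nonempty := by
    refine ⟨Pi.single i 1, ?_, ?_⟩
    · unfold T
      rw [Finset.sum_eq_single i]
      · simp
      · intro b _ hb; simp [hb]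
      · intro h; exact absurd hi h
    · intro a ha
      have : a ≠ i := fun h => ha (h ▸ hi)
      simp [this]
  obtain ⟨v, hv, hmin⟩ := hK.exists_isMinOn hKn
    (f := fun x => q s B x) (by unfold q; fun_prop)
  refine ⟨v, hv.1, fun x => ?_⟩
  rcases eq_or_lt_of_le (T_nonneg s x) with h0 | h0
  · have h1 : ∀ a ∈ s, x a = 0 := by
      intro a ha
      have := (Finset.sum_eq_zero_iff_of_nonneg (fun _ _ => sq_nonneg _)).1 h0.symm a ha
      simpa using this
    have h2 : q s B x = 0 := by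
      unfold q
      refine Finset.sum_eq_zero fun a ha => Finset.sum_eq_zero fun b _ => ?_
      rw [h1 a ha]; ring
    rw [← h0, h2, mul_zero]
  · set r := Real.sqrt (T s x) with hr
    have hr2 : r * r = T s x := Real.mul_self_sqrt h0.le
    have hr0 : 0 < r := Real.sqrt_pos.2 h0
    have hy : (fun a => if a ∈ s then x a / r else 0) ∈
        {x : ι → ℝ | T s x = 1 ∧ ∀ a ∉ s, x a = 0} := by
      refine ⟨?_, fun a ha => by simp [ha]⟩
      unfold T
      have hc : ∀ a ∈ s, (if a ∈ s then x a / r else 0) ^ 2 = x a ^ 2 / r ^ 2 := fun a ha => by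
        rw [if_pos ha, div_pow]
      rw [Finset.sum_congr rfl hc, ← Finset.sum_div, div_eq_one_iff_eq (by positivity), pow_two r,
        hr2]
      rfl
    have h1 : q s B v ≤ q s B (fun a => if a ∈ s then x a / r else 0) := hmin hy
    have h2 : q s B (fun a => if a ∈ s then x a / r else 0) = q s B x / T s x := by
      unfold q
      rw [Finset.sum_div]
      refine Finset.sum_congr rfl fun a ha => ?_
      rw [Finset.sum_div]
      refine Finset.sum_congr rfl fun b hb => ?_
      simp only [if_pos ha, if_pos hb]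
      rw [← hr2]
      field_simp
    rw [h2, le_div_iff₀ h0] at h1
    exact h1

omit [DecidableEq ι] in
lemma T_insert [DecidableEq ι] {t : Finset ι} {i : ι} (hi : i ∉ t) (x : ι → ℝ) :
    T (insert i t) x = x i ^ 2 + T t x := by
  unfold T; rw [Finset.sum_insert hi]

/-- the eigenvector equation -/
lemma eigen {s : Finset ι} {B : ι → ι → ℝ} (hs : ∀ a b, B a b = B b a) (hd : ∀ a, B a a = 0)
    {v : ι → ℝ} {l : ℝ} (hv : q s B v = -l * T s v) (hmin : ∀ x, -l * T s x ≤ q s B x)
    {i : ι} (hi : i ∈ s) : ∑ b ∈ s.erase i, B i b * v b = -l * v i := by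
  have hsi : insert i (s.erase i) = s := Finset.insert_erase hi
  have hni : i ∉ s.erase i := Finset.notMem_erase i s
  set S := ∑ b ∈ s.erase i, B i b * v b with hS
  have hc : ∀ t : ℝ, ∀ a ∈ s.erase i, Function.update v i (v i + t) a = v a := fun t a ha =>
    Function.update_of_ne (Finset.ne_of_mem_erase ha) _ _
  have h1 : ∀ t : ℝ, 0 ≤ t * (2 * S + 2 * l * v i) + l * t ^ 2 := by
    intro t
    have h2 := hmin (Function.update v i (v i + t))
    rw [← hsi, T_insert hni, q_insert hni hs hd, Function.update_self,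
      q_congr (fun _ _ _ _ => rfl) (hc t),
      Finset.sum_congr rfl (fun b hb => by rw [hc t b hb]), ← hS] at h2
    have h3 : T (s.erase i) (Function.update v i (v i + t)) = T (s.erase i) v :=
      Finset.sum_congr rfl fun a ha => by rw [hc t a ha]
    rw [h3] at h2
    rw [← hsi, T_insert hni, q_insert hni hs hd, ← hS] at hv
    nlinarith
  by_contra hne
  have h4 : 2 * S + 2 * l * v i ≠ 0 := fun h => hne (by linarith)
  set D := 2 * S + 2 * l * v i with hD
  have hD2 : 0 < D ^ 2 := by positivity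
  have h5 := h1 (-D / (2 * (|l| + 1)))
  have hl : 0 < |l| + 1 := by positivity
  have h6 : -D / (2 * (|l| + 1)) * D + l * (-D / (2 * (|l| + 1))) ^ 2 =
      D ^ 2 / (2 * (|l| + 1)) * (l / (2 * (|l| + 1)) - 1) := by
    field_simp
    ring
  rw [h6] at h5
  have h7 : l / (2 * (|l| + 1)) - 1 < 0 := by
    rw [sub_neg, div_lt_one (by positivity)]
    linarith [le_abs_self l]
  have h8 : 0 < D ^ 2 / (2 * (|l| + 1)) := by positivity
  nlinarith

/-- the effect of merging the coordinates `i` and `j` of an eigenvector with opposite signs -/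
lemma step {s : Finset ι} {B : ι → ι → ℝ} (hs : ∀ a b, B a b = B b a) (hd : ∀ a, B a a = 0)
    {m : ℝ} (hm : ∀ e : ι → ℝ, IsSign e → q s B e ≤ m)
    (ih : ∀ (s' : Finset ι), s'.card + 1 = s.card → ∀ (B : ι → ι → ℝ),
      (∀ a b, B a b = B b a) → (∀ a, B a a = 0) → ∀ m : ℝ,
      (∀ e : ι → ℝ, IsSign e → q s' B e ≤ m) → ∀ v : ι → ℝ, 0 ≤ m * T s' v + q s' B v)
    {v : ι → ℝ} (hT : T s v = 1) {l : ℝ} (hl : q s B v = -l)
    (hmin : ∀ x, -l * T s x ≤ q s B x) {i j : ι} (hi : i ∈ s) (hj : j ∈ s.erase i)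
    :
    ∃ κ β σ : ℝ, (σ = 1 ∨ σ = -1) ∧ κ = |v i * v j| ∧ B i j = σ * β ∧ σ * (v i * v j) = -κ ∧
      2 * β ≤ m ∧ 0 ≤ (m - 2 * β) * (1 - 2 * κ) +
        (-l + 4 * l * κ - 2 * β * (v i ^ 2 + v j ^ 2) + 2 * β * κ) := by
  have hv : q s B v = -l * T s v := by rw [hT, hl, mul_one]
  have hsi : insert i (s.erase i) = s := Finset.insert_erase hi
  have hni : i ∉ s.erase i := Finset.notMem_erase i s
  have hS := eigen hs hd hv hmin hi
  have hTi : v i ^ 2 + T (s.erase i) v = 1 := by rw [← T_insert hni, hsi, hT]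
  have hji : j ≠ i := Finset.ne_of_mem_erase hj
  -- the set of the other indices
  obtain ⟨t, ht, hjt⟩ : ∃ t, s.erase i = insert j t ∧ j ∉ t :=
    ⟨(s.erase i).erase j, (Finset.insert_erase hj).symm, Finset.notMem_erase _ _⟩
  have hit : i ∉ t := fun h => hni (by rw [ht]; exact Finset.mem_insert_of_mem h)
  have hs' : s = insert j (insert i t) := by
    rw [← hsi, ht, Finset.insert_comm]
  have hji' : j ∉ insert i t := by
    rw [Finset.mem_insert]; push Not; exact ⟨hji, hjt⟩
  -- formula for `q` on `s`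
  have hq : ∀ x : ι → ℝ, q s B x = q t B x + 2 * x i * (∑ b ∈ t, B i b * x b) +
      2 * x j * (B i j * x i + ∑ b ∈ t, B j b * x b) := by
    intro x
    rw [hs', q_insert hji' hs hd, q_insert hit hs hd, Finset.sum_insert hit, hs j i]
  have hSi : B i j * v j + ∑ b ∈ t, B i b * v b = -l * v i := by
    rw [ht, Finset.sum_insert hjt] at hS; exact hS
  have hSj : B i j * v i + ∑ b ∈ t, B j b * v b = -l * v j := by
    have h := eigen hs hd hv hmin (i := j) (Finset.mem_of_mem_erase hj)
    have h2 : s.erase j = insert i t := by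
      rw [hs', Finset.erase_insert hji']
    rw [h2, Finset.sum_insert hit, hs j i] at h
    exact h
  have hTt : v i ^ 2 + (v j ^ 2 + T t v) = 1 := by
    rw [ht, T_insert hjt] at hTi; exact hTi
  -- the sign
  obtain ⟨σ, hσ, hκ⟩ : ∃ σ : ℝ, σ ^ 2 = 1 ∧ σ * (v i * v j) = -|v i * v j| := by
    rcases le_total 0 (v i * v j) with h | h
    · exact ⟨-1, by norm_num, by rw [abs_of_nonneg h]; ring⟩
    · exact ⟨1, by norm_num, by rw [abs_of_nonpos h]; ring⟩
  have hσ' : σ = 1 ∨ σ = -1 := by
    have h : (σ - 1) * (σ + 1) = 0 := by nlinarith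
    rcases mul_eq_zero.1 h with h | h
    · exact Or.inl (by linarith)
    · exact Or.inr (by linarith)
  set κ := |v i * v j| with hκdef
  obtain ⟨β, hβ⟩ : ∃ β, β = σ * B i j := ⟨_, rfl⟩
  have hB : B i j = σ * β := by rw [hβ, ← mul_assoc, ← pow_two, hσ, one_mul]
  -- the sign vectors on the merged set
  have hm' : ∀ e : ι → ℝ, IsSign e → q (insert i t) (merge B i j σ) e ≤ m - 2 * β := by
    intro e he
    have h1 := hm (Function.update e j (σ * e i)) (by
      intro a
      by_cases ha : a = j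
      · subst ha
        rw [Function.update_self]
        rcases hσ' with h | h <;> rcases he i with h' | h' <;> rw [h, h'] <;> norm_num
      · rw [Function.update_of_ne ha]; exact he a)
    have hc : ∀ a ∈ t, Function.update e j (σ * e i) a = e a := fun a ha =>
      Function.update_of_ne (fun h => hjt (by rw [← h]; exact ha)) _ _
    have hcs : ∀ k, ∑ b ∈ t, B k b * Function.update e j (σ * e i) b = ∑ b ∈ t, B k b * e b :=
      fun k => Finset.sum_congr rfl fun b hb => by rw [hc b hb]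
    rw [hq, q_congr (fun _ _ _ _ => rfl) hc, hcs i, hcs j, Function.update_self,
      Function.update_of_ne hji.symm] at h1
    rw [q_merge hs hd hit]
    have he2 : e i ^ 2 = 1 := by rcases he i with h | h <;> rw [h] <;> norm_num
    have h2 : 2 * (σ * e i) * (B i j * e i) = 2 * β := by
      rw [hB]
      linear_combination (2 * β * e i ^ 2) * hσ + (2 * β) * he2
    linarith
  have hcard' : (insert i t).card + 1 = s.card := by
    rw [hs', Finset.card_insert_of_notMem hji']
  have hfin := ih (insert i t) hcard' (merge B i j σ) (merge_symm hs i j σ)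
    (merge_diag hd i j σ) (m - 2 * β) hm' (Function.update v i (v i + σ * v j))
  have hc : ∀ a ∈ t, Function.update v i (v i + σ * v j) a = v a := fun a ha =>
    Function.update_of_ne (fun h => hit (by rw [← h]; exact ha)) _ _
  have hTc : T t (Function.update v i (v i + σ * v j)) = T t v :=
    Finset.sum_congr rfl fun a ha => by rw [hc a ha]
  have hcs : ∀ k, ∑ b ∈ t, B k b * Function.update v i (v i + σ * v j) b = ∑ b ∈ t, B k b * v b :=
    fun k => Finset.sum_congr rfl fun b hb => by rw [hc b hb]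
  rw [q_merge hs hd hit, T_insert hit, hcs i, hcs j, Function.update_self, hTc,
    q_congr (fun _ _ _ _ => rfl) hc] at hfin
  have hqv := hq v
  rw [hl] at hqv
  set Si := ∑ b ∈ t, B i b * v b with hSidef
  set Sj := ∑ b ∈ t, B j b * v b with hSjdef
  have e1 : (v i + σ * v j) ^ 2 + T t v = 1 - 2 * κ := by
    linear_combination hTt + 2 * hκ + v j ^ 2 * hσ
  rw [e1] at hfin
  have hSi' : Si = -l * v i - σ * β * v j := by rw [hB] at hSi; linarith
  have hSj' : Sj = -l * v j - σ * β * v i := by rw [hB] at hSj; linarith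
  have e2 : q t B v + 2 * (v i + σ * v j) * (Si + σ * Sj) =
      -l + 4 * l * κ - 2 * β * (v i ^ 2 + v j ^ 2) + 2 * β * κ := by
    rw [hB, hSi', hSj'] at hqv
    rw [hSi', hSj']
    linear_combination (-hqv) + (-4 * l - 2 * β) * hκ +
      (-2 * β * v i ^ 2 - 2 * β * v j ^ 2 - 2 * l * v j ^ 2 - 2 * β * σ * v i * v j) * hσ
  rw [e2] at hfin
  have hm2 : 2 * β ≤ m := by
    obtain ⟨e, he, h0⟩ := exists_nonneg (merge_symm hs i j σ) (merge_diag hd i j σ) (insert i t)
    linarith [h0.trans (hm' e he)]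
  exact ⟨κ, β, σ, hσ', rfl, hB, hκ, hm2, hfin⟩

/-- the geometric inequality used for the coordinate of largest modulus -/
lemma geo {x y κ : ℝ} (hxy : y ^ 2 ≤ x ^ 2) (hκ : κ = |x * y|) :
    1 - x ^ 2 + (|x| - |y|) * (2 * |x| - |y|) = 1 + (x ^ 2 + y ^ 2) - 3 * κ ∧
      0 ≤ (|x| - |y|) * (2 * |x| - |y|) := by
  have h1 : |y| ≤ |x| := sq_le_sq.1 hxy
  have h2 : κ = |x| * |y| := by rw [hκ, abs_mul]
  have h3 : x ^ 2 = |x| ^ 2 := (sq_abs _).symm
  have h4 : y ^ 2 = |y| ^ 2 := (sq_abs _).symm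
  refine ⟨?_, mul_nonneg (by linarith) (by linarith [abs_nonneg x])⟩
  rw [h2, h3, h4]
  ring

/-- **Main lemma.** If `q ≤ m` on all sign vectors then `q v ≥ - m ‖v‖²` for every `v`. -/
theorem main [Finite ι] : ∀ (N : ℕ) (s : Finset ι), s.card = N → ∀ (B : ι → ι → ℝ),
    (∀ a b, B a b = B b a) → (∀ a, B a a = 0) → ∀ m : ℝ,
    (∀ e : ι → ℝ, IsSign e → q s B e ≤ m) → ∀ v : ι → ℝ, 0 ≤ m * T s v + q s B v := by
  intro N
  induction N with
  | zero =>
    intro s hs B _ _ m _ v
    rw [Finset.card_eq_zero] at hs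
    subst hs
    simp [q, T]
  | succ N ih =>
    intro s hcard B hs hd m hm v0
    have hne : s.Nonempty := by rw [← Finset.card_pos]; omega
    obtain ⟨v, hT, hmin⟩ := exists_min s hne B
    obtain ⟨l, hl⟩ : ∃ l, q s B v = -l := ⟨-q s B v, by ring⟩
    rw [hl] at hmin
    have hv : q s B v = -l * T s v := by rw [hT, hl, mul_one]
    suffices hml : l ≤ m by
      have h1 := hmin v0
      have h2 := T_nonneg s v0
      nlinarith
    have hm0 : 0 ≤ m := by
      obtain ⟨e, he, h0⟩ := exists_nonneg hs hd s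
      exact h0.trans (hm e he)
    by_contra hlm
    push Not at hlm
    have hl0 : 0 < l := hm0.trans_lt hlm
    obtain ⟨i, hi, himax⟩ := s.exists_max_image (fun a => v a ^ 2) hne
    have hsi : insert i (s.erase i) = s := Finset.insert_erase hi
    have hni : i ∉ s.erase i := Finset.notMem_erase i s
    have hvi : 0 < v i ^ 2 := by
      by_contra h
      push Not at h
      have : T s v ≤ 0 := Finset.sum_nonpos fun a ha => (himax a ha).trans h
      linarith
    have hvi' : v i ≠ 0 := fun h => by rw [h] at hvi; norm_num at hvi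
    have hS := eigen hs hd hv hmin hi
    have hTi : v i ^ 2 + T (s.erase i) v = 1 := by rw [← T_insert hni, hsi, hT]
    -- the choice of `j`
    obtain ⟨j, hj, hvj, hH⟩ : ∃ j ∈ s.erase i, v j ≠ 0 ∧
        l * v i ^ 2 * v j ^ 2 ≤ -(B i j * v j) * v i * (1 - v i ^ 2) := by
      by_contra hcon
      push Not at hcon
      have hex : ∃ j ∈ s.erase i, v j ≠ 0 := by
        by_contra h
        push Not at h
        rw [Finset.sum_eq_zero (fun b hb => by rw [h b hb, mul_zero])] at hS
        rcases mul_eq_zero.1 hS.symm with h | h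
        · linarith
        · exact hvi' h
      obtain ⟨j0, hj0, hj0'⟩ := hex
      have hlt : ∑ j ∈ s.erase i, -(B i j * v j) * v i * (1 - v i ^ 2) <
          ∑ j ∈ s.erase i, l * v i ^ 2 * v j ^ 2 := by
        refine Finset.sum_lt_sum (fun j hj => ?_) ⟨j0, hj0, hcon j0 hj0 hj0'⟩
        by_cases h : v j = 0
        · rw [h]; simp
        · exact (hcon j hj h).le
      rw [← Finset.mul_sum, ← Finset.sum_mul, ← Finset.sum_mul, Finset.sum_neg_distrib, hS] at hlt
      change _ < l * v i ^ 2 * T (s.erase i) v at hlt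
      have : T (s.erase i) v = 1 - v i ^ 2 := by linarith
      rw [this] at hlt
      nlinarith
    obtain ⟨κ, β, σ, hσ', hκdef, hB, hκ, hm2, hfin⟩ := step hs hd hm
      (fun s' h' => ih s' (by omega)) hT hl hmin hi hj
    have hκ0 : 0 < κ := by
      rw [hκdef, abs_pos]
      exact mul_ne_zero hvi' hvj
    have hκ2 : κ ^ 2 = v i ^ 2 * v j ^ 2 := by rw [hκdef, sq_abs]; ring
    have h1v : 0 < 1 - v i ^ 2 := by
      have h1 : 0 < v j ^ 2 := by positivity
      have h2 : v j ^ 2 ≤ T (s.erase i) v :=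
        Finset.single_le_sum (f := fun a => v a ^ 2) (fun _ _ => sq_nonneg _) hj
      linarith
    have hβκ : l * κ ≤ β * (1 - v i ^ 2) := by
      have h1 : -(B i j * v j) * v i * (1 - v i ^ 2) = κ * (β * (1 - v i ^ 2)) := by
        rw [hB]
        linear_combination (-β * (1 - v i ^ 2)) * hκ
      rw [h1] at hH
      have h2 : l * v i ^ 2 * v j ^ 2 = κ * (l * κ) := by
        linear_combination (-l) * hκ2
      rw [h2] at hH
      exact le_of_mul_le_mul_left hH hκ0
    have hβ0 : 0 < β := by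
      by_contra h
      push Not at h
      have h1 : 0 < l * κ := by positivity
      nlinarith
    obtain ⟨hg1, hg2⟩ := geo (himax j (Finset.mem_of_mem_erase hj)) hκdef
    have h9 : l * κ ≤ β * (1 + (v i ^ 2 + v j ^ 2) - 3 * κ) := by
      rw [← hg1, mul_add]
      have := mul_nonneg hβ0.le hg2
      linarith
    have h2β : 2 * β < l := by linarith
    have hκle : 2 * κ < 1 := by
      have h2 : 2 * β * κ < l * κ := mul_lt_mul_of_pos_right h2β hκ0
      by_contra h
      push Not at h
      nlinarith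
    have h10 : 0 ≤ (m - l) * (1 - 2 * κ) := by nlinarith
    have h11 : (m - l) * (1 - 2 * κ) < 0 := mul_neg_of_neg_of_pos (by linarith) (by linarith)
    linarith

/-! ### Signed sums of `n + 1` unit vectors in dimension `n` -/

/-- the off-diagonal part of the Gram matrix -/
noncomputable def gram {n : ℕ} {ι : Type*} [DecidableEq ι] (u : ι → E n) : ι → ι → ℝ :=
  fun a b => if a = b then 0 else inner ℝ (u a) (u b)

lemma gram_symm {n : ℕ} (u : ι → E n) : ∀ a b, gram u a b = gram u b a := by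
  intro a b
  simp only [gram, eq_comm (a := a) (b := b), real_inner_comm]

lemma gram_diag {n : ℕ} (u : ι → E n) : ∀ a, gram u a a = 0 := fun a => by simp [gram]

lemma gram_ne {n : ℕ} (u : ι → E n) {a b : ι} (h : a ≠ b) : gram u a b = inner ℝ (u a) (u b) := by
  simp [gram, h]

lemma norm_sq_sum {n : ℕ} (u : ι → E n) (s : Finset ι) (hu : ∀ i, ‖u i‖ = 1) (x : ι → ℝ) :
    ‖∑ i ∈ s, x i • u i‖ ^ 2 = T s x + q s (gram u) x := by
  rw [← real_inner_self_eq_norm_sq, sum_inner]
  unfold q T
  rw [← Finset.sum_add_distrib]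
  refine Finset.sum_congr rfl fun a ha => ?_
  rw [inner_sum]
  have h1 : ∀ b, inner ℝ (x a • u a) (x b • u b) =
      (if a = b then x a ^ 2 else 0) + gram u a b * (x a * x b) := by
    intro b
    rw [inner_smul_left, inner_smul_right]
    by_cases h : a = b
    · subst h
      simp only [gram, if_true, real_inner_self_eq_norm_sq, hu]
      simp
      ring
    · simp only [gram, if_neg h]
      simp
      ring
  simp only [h1, Finset.sum_add_distrib]
  simp [ha]

omit [DecidableEq ι] in
lemma T_sign {s : Finset ι} {e : ι → ℝ} (he : IsSign e) : T s e = s.card := by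
  unfold T
  have : ∀ i, e i ^ 2 = 1 := fun i => by rcases he i with h | h <;> rw [h] <;> norm_num
  simp [this]

/-- a normalised linear dependence between `n + 1` vectors in dimension `n` -/
lemma exists_dep {n : ℕ} (u : Fin (n + 1) → E n) :
    ∃ v : Fin (n + 1) → ℝ, ∑ i, v i • u i = 0 ∧ T Finset.univ v = 1 := by
  obtain ⟨v, hv0, i, hi⟩ : ∃ v : Fin (n + 1) → ℝ, ∑ i, v i • u i = 0 ∧ ∃ i, v i ≠ 0 := by
    have h : ¬ LinearIndependent ℝ u := by
      intro h
      have := h.fintype_card_le_finrank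
      simp at this
    exact Fintype.not_linearIndependent_iff.1 h
  have hT : 0 < T Finset.univ v :=
    Finset.sum_pos' (fun _ _ => sq_nonneg _) ⟨i, Finset.mem_univ _, by positivity⟩
  set r := Real.sqrt (T Finset.univ v) with hr
  have hr2 : r ^ 2 = T Finset.univ v := Real.sq_sqrt hT.le
  have hr0 : 0 < r := Real.sqrt_pos.2 hT
  refine ⟨fun i => r⁻¹ * v i, ?_, ?_⟩
  · simp only [mul_smul, ← Finset.smul_sum, hv0, smul_zero]
  · unfold T
    simp only [mul_pow, ← Finset.mul_sum]
    change _ * T Finset.univ v = 1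
    rw [← hr2]
    field_simp

lemma q_dep {n : ℕ} (u : Fin (n + 1) → E n) (hu : ∀ i, ‖u i‖ = 1) {v : Fin (n + 1) → ℝ}
    (hv : ∑ i, v i • u i = 0) (hT : T Finset.univ v = 1) : q Finset.univ (gram u) v = -1 := by
  have := norm_sq_sum u Finset.univ hu v
  rw [hv, norm_zero, hT] at this
  linarith

lemma exists_signs {n : ℕ} (u : Fin (n + 1) → E n) (hu : ∀ i, ‖u i‖ = 1) :
    ∃ e : Fin (n + 1) → ℝ, IsSign e ∧ (n : ℝ) + 2 ≤ ‖∑ i, e i • u i‖ ^ 2 := by
  obtain ⟨v, hv0, hT⟩ := exists_dep u
  have hqv := q_dep u hu hv0 hT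
  by_contra hcon
  push Not at hcon
  -- the maximum over sign vectors is attained
  have hfin : Set.Finite {e : Fin (n + 1) → ℝ | IsSign e} := by
    refine (Set.Finite.pi' (fun _ : Fin (n + 1) => (Set.toFinite ({1, -1} : Set ℝ)))).subset ?_
    intro e he a
    simpa using he a
  obtain ⟨e, he, hmax⟩ := Set.exists_max_image _ (fun e => q Finset.univ (gram u) e) hfin
    ⟨fun _ => 1, fun _ => Or.inl rfl⟩
  have h1 := main (n + 1) Finset.univ (by simp) (gram u) (gram_symm u) (gram_diag u)
    (q Finset.univ (gram u) e) hmax v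
  rw [hqv, hT] at h1
  have h3 := norm_sq_sum u Finset.univ hu e
  rw [T_sign he] at h3
  have h5 := hcon e he
  rw [h3] at h5
  simp at h5
  linarith

/-! ### The potential -/

/-- the expected squared distance from `c` if the `i`-th vector is drawn independently from the
unit vectors with mean `y i` -/
noncomputable def Psi {n : ℕ} (c : E n) (y : Fin (n + 1) → E n) : ℝ :=
  ‖(∑ i, y i) - c‖ ^ 2 + ∑ i, (1 - ‖y i‖ ^ 2)

lemma Psi_update {n : ℕ} (c : E n) (y : Fin (n + 1) → E n) (i : Fin (n + 1)) (x : E n) :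
    Psi c (Function.update y i x) =
      Psi c (Function.update y i 0) + 2 * inner ℝ x ((∑ j ∈ Finset.univ.erase i, y j) - c) := by
  have h1 : ∀ x : E n, ∑ j, Function.update y i x j = x + ∑ j ∈ Finset.univ.erase i, y j := by
    intro x
    rw [← Finset.add_sum_erase _ _ (Finset.mem_univ i), Function.update_self]
    congr 1
    exact Finset.sum_congr rfl fun j hj => Function.update_of_ne (Finset.ne_of_mem_erase hj) _ _
  have h2 : ∀ x : E n, ∑ j, (1 - ‖Function.update y i x j‖ ^ 2) =
      (1 - ‖x‖ ^ 2) + ∑ j ∈ Finset.univ.erase i, (1 - ‖y j‖ ^ 2) := by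
    intro x
    rw [← Finset.add_sum_erase _ _ (Finset.mem_univ i), Function.update_self]
    congr 1
    exact Finset.sum_congr rfl fun j hj => by
      rw [Function.update_of_ne (Finset.ne_of_mem_erase hj)]
  unfold Psi
  rw [h1, h1, h2, h2, zero_add, add_sub_assoc, norm_add_sq_real, norm_zero]
  ring

/-- one coordinate may be replaced by a point of a finite set of which it is a mean -/
lemma Psi_split {n : ℕ} (c : E n) (y : Fin (n + 1) → E n) (i : Fin (n + 1)) {κ : Type*}
    (K : Finset κ) (l : κ → ℝ) (z : κ → E n) (hl : ∀ k ∈ K, 0 ≤ l k) (h1 : 0 < ∑ k ∈ K, l k)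
    (hz : ∑ k ∈ K, l k • z k = 0) (hy : y i = 0) :
    ∃ k ∈ K, Psi c y ≤ Psi c (Function.update y i (z k)) := by
  by_contra hcon
  push Not at hcon
  have hyu : Function.update y i 0 = y := by rw [← hy]; exact Function.update_eq_self i y
  have h2 : ∀ k ∈ K, Psi c (Function.update y i (z k)) - Psi c y =
      2 * inner ℝ (z k) ((∑ j ∈ Finset.univ.erase i, y j) - c) := by
    intro k _
    rw [Psi_update, hyu]; ring
  have h3 : ∑ k ∈ K, l k * (Psi c (Function.update y i (z k)) - Psi c y) = 0 := by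
    have : ∀ k ∈ K, l k * (Psi c (Function.update y i (z k)) - Psi c y) =
        2 * inner ℝ (l k • z k) ((∑ j ∈ Finset.univ.erase i, y j) - c) := by
      intro k hk
      rw [h2 k hk, inner_smul_left]
      simp
      ring
    rw [Finset.sum_congr rfl this, ← Finset.mul_sum, ← sum_inner, hz, inner_zero_left, mul_zero]
  obtain ⟨k, hk, hk0⟩ : ∃ k ∈ K, 0 < l k := by
    by_contra h
    push Not at h
    exact absurd (Finset.sum_nonpos h) (not_le.2 h1)
  have h4 : ∑ k ∈ K, l k * (Psi c (Function.update y i (z k)) - Psi c y) < 0 := by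
    refine Finset.sum_neg' (fun k hk => ?_) ⟨k, hk, ?_⟩
    · exact mul_nonpos_of_nonneg_of_nonpos (hl k hk) (by linarith [hcon k hk])
    · exact mul_neg_of_pos_of_neg hk0 (by linarith [hcon k hk])
  linarith

/-- all the coordinates which are `0` may be replaced by `t`-multiples of elements -/
lemma fill {n : ℕ} {U : Fin (n + 1) → Finset (E n)} (hU : ∀ i, Balanced (U i)) (c : E n) (t : ℝ)
    (y : Fin (n + 1) → E n) (R : Finset (Fin (n + 1))) (hR : ∀ i ∉ R, ∃ a ∈ U i, y i = t • a)
    (hR0 : ∀ i ∈ R, y i = 0) :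
    ∃ a : Fin (n + 1) → E n, (∀ i, a i ∈ U i) ∧ Psi c y ≤ Psi c (fun i => t • a i) := by
  induction R using Finset.induction_on generalizing y with
  | empty =>
    choose a ha ha' using fun i => hR i (Finset.notMem_empty i)
    exact ⟨a, ha, le_of_eq (by congr 1; funext i; exact ha' i)⟩
  | insert i R hi ih =>
    obtain ⟨h2, -, -, l, hl, hs⟩ := hU i
    have hne : (U i).Nonempty := by rw [← Finset.card_pos]; omega
    obtain ⟨u, hu, hle⟩ := Psi_split c y i (U i) l (fun u => t • u) (fun u hu => (hl u hu).le)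
      (Finset.sum_pos hl hne) (by
        have : ∀ u ∈ U i, l u • t • u = t • l u • u := fun u _ => smul_comm _ _ _
        rw [Finset.sum_congr rfl this, ← Finset.smul_sum, hs, smul_zero])
      (hR0 i (Finset.mem_insert_self _ _))
    obtain ⟨a, ha, hle'⟩ := ih (Function.update y i (t • u)) (fun j hj => by
        by_cases hji : j = i
        · subst hji
          exact ⟨u, hu, Function.update_self _ _ _⟩
        · obtain ⟨a, ha, ha'⟩ := hR j (by
            rw [Finset.mem_insert]; push Not; exact ⟨hji, hj⟩)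
          exact ⟨a, ha, by rw [Function.update_of_ne hji]; exact ha'⟩)
      (fun j hj => by
        have hji : j ≠ i := fun h => hi (h ▸ hj)
        rw [Function.update_of_ne hji]
        exact hR0 j (Finset.mem_insert_of_mem hj))
    exact ⟨a, ha, hle.trans hle'⟩

/-- a simultaneous symmetric move of all coordinates by vectors of the same length -/
lemma move {n : ℕ} (c : E n) (y d : Fin (n + 1) → E n) {r : ℝ} (hr : 0 ≤ r)
    (hd : ∀ i, ‖d i‖ = r) :
    ∃ e : Fin (n + 1) → ℝ, IsSign e ∧ Psi c y + r ^ 2 ≤ Psi c (fun i => y i + e i • d i) := by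
  obtain ⟨e, he, hge⟩ : ∃ e : Fin (n + 1) → ℝ, IsSign e ∧
      ((n : ℝ) + 2) * r ^ 2 ≤ ‖∑ i, e i • d i‖ ^ 2 := by
    rcases eq_or_lt_of_le hr with h0 | h0
    · exact ⟨fun _ => 1, fun _ => Or.inl rfl, by rw [← h0]; simp⟩
    · obtain ⟨e, he, h⟩ := exists_signs (fun i => r⁻¹ • d i) (fun i => by
        rw [norm_smul, hd i, Real.norm_of_nonneg (by positivity), inv_mul_cancel₀ h0.ne'])
      refine ⟨e, he, ?_⟩
      have h1 : ∑ i, e i • r⁻¹ • d i = r⁻¹ • ∑ i, e i • d i := by
        rw [Finset.smul_sum]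
        exact Finset.sum_congr rfl fun i _ => smul_comm _ _ _
      rw [h1, norm_smul, mul_pow, Real.norm_of_nonneg (by positivity)] at h
      have h2 : ((n : ℝ) + 2) * r ^ 2 ≤ (r⁻¹ ^ 2 * ‖∑ i, e i • d i‖ ^ 2) * r ^ 2 :=
        mul_le_mul_of_nonneg_right h (by positivity)
      refine h2.trans (le_of_eq ?_)
      field_simp
  have key : ∀ e : Fin (n + 1) → ℝ, IsSign e → Psi c (fun i => y i + e i • d i) =
      Psi c y + (‖∑ i, e i • d i‖ ^ 2 - ((n : ℝ) + 1) * r ^ 2) +
        (2 * inner ℝ ((∑ i, y i) - c) (∑ i, e i • d i) - 2 * ∑ i, inner ℝ (y i) (e i • d i)) := by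
    intro e he
    have h1 : ∀ i, 1 - ‖y i + e i • d i‖ ^ 2 =
        (1 - ‖y i‖ ^ 2) - r ^ 2 - 2 * inner ℝ (y i) (e i • d i) := by
      intro i
      rw [norm_add_sq_real, norm_smul, hd i]
      have : ‖e i‖ = 1 := by rcases he i with h | h <;> rw [h] <;> simp
      rw [this]
      ring
    unfold Psi
    simp only [h1, Finset.sum_sub_distrib, ← Finset.mul_sum, Finset.sum_add_distrib]
    rw [add_sub_right_comm, norm_add_sq_real]
    simp
    ring
  set A : (Fin (n + 1) → ℝ) → ℝ := fun e =>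
    2 * inner ℝ ((∑ i, y i) - c) (∑ i, e i • d i) - 2 * ∑ i, inner ℝ (y i) (e i • d i) with hA
  have hneg : IsSign (fun i => - e i) := by
    intro i
    rcases he i with h | h
    · right; simp [h]
    · left; simp [h]
  have hsum : ∑ i, (- e i) • d i = - ∑ i, e i • d i := by
    simp [neg_smul, Finset.sum_neg_distrib]
  have hAneg : A (fun i => - e i) = - A e := by
    simp only [hA, inner_neg_right, neg_smul, Finset.sum_neg_distrib]
    ring
  rcases le_total 0 (A e) with h | h
  · refine ⟨e, he, ?_⟩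
    rw [key e he]
    change _ ≤ _ + _ + A e
    nlinarith
  · refine ⟨fun i => - e i, hneg, ?_⟩
    rw [key _ hneg, hsum, norm_neg]
    rw [← hsum]
    change _ ≤ _ + _ + A (fun i => - e i)
    rw [hAneg]
    nlinarith

/-- doubling the multiple `t` -/
lemma double {n : ℕ} {U : Fin (n + 1) → Finset (E n)} (hU : ∀ i, Balanced (U i)) (c : E n) {t : ℝ}
    (ht : 0 ≤ t) (a : Fin (n + 1) → E n) (ha : ∀ i, a i ∈ U i) :
    ∃ b : Fin (n + 1) → E n, (∀ i, b i ∈ U i) ∧
      Psi c (fun i => t • a i) + t ^ 2 ≤ Psi c (fun i => (2 * t) • b i) := by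
  classical
  obtain ⟨e, he, h⟩ := move c (fun i => t • a i) (fun i => t • a i) ht (fun i => by
    rw [norm_smul, (hU i).2.2.1 _ (ha i), Real.norm_of_nonneg ht, mul_one])
  obtain ⟨b, hb, h'⟩ := fill hU c (2 * t) (fun i => t • a i + e i • t • a i)
    (Finset.univ.filter fun i => e i = -1) (fun i hi => by
      have h1 : e i = 1 := by
        rcases he i with h1 | h1
        · exact h1
        · exact absurd (Finset.mem_filter.2 ⟨Finset.mem_univ i, h1⟩) hi
      exact ⟨a i, ha i, by rw [h1, one_smul, ← add_smul]; congr 1; ring⟩)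
    (fun i hi => by
      have h1 : e i = -1 := (Finset.mem_filter.1 hi).2
      rw [h1, neg_smul, one_smul, add_neg_cancel])
  exact ⟨b, hb, h.trans h'⟩

lemma Psi_zero {n : ℕ} (c : E n) : Psi c (fun _ : Fin (n + 1) => (0 : E n)) =
    ‖c‖ ^ 2 + ((n : ℝ) + 1) := by
  unfold Psi
  simp

lemma iterate {n : ℕ} {U : Fin (n + 1) → Finset (E n)} (hU : ∀ i, Balanced (U i)) (c : E n)
    {t : ℝ} (ht : 0 ≤ t) (k : ℕ) :
    ∃ a : Fin (n + 1) → E n, (∀ i, a i ∈ U i) ∧
      ‖c‖ ^ 2 + ((n : ℝ) + 1) + t ^ 2 * (4 ^ k - 1) / 3 ≤ Psi c (fun i => (2 ^ k * t) • a i) := by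
  induction k with
  | zero =>
    obtain ⟨a, ha, h⟩ := fill hU c t (fun _ => 0) Finset.univ (fun i hi => by simp at hi)
      (fun i _ => rfl)
    refine ⟨a, ha, ?_⟩
    rw [Psi_zero] at h
    simpa using h
  | succ k ih =>
    obtain ⟨a, ha, h⟩ := ih
    obtain ⟨b, hb, h'⟩ := double hU c (by positivity : (0 : ℝ) ≤ 2 ^ k * t) a ha
    refine ⟨b, hb, ?_⟩
    have h1 : 2 * (2 ^ k * t) = 2 ^ (k + 1) * t := by ring
    rw [h1] at h'
    refine le_trans ?_ h'
    have h2 : ((2 : ℝ) ^ k * t) ^ 2 = t ^ 2 * 4 ^ k := by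
      rw [mul_pow, ← pow_mul, mul_comm k 2, pow_mul]; norm_num; ring
    rw [h2]
    have h3 : (4 : ℝ) ^ (k + 1) = 4 * 4 ^ k := by ring
    rw [h3]
    linarith

lemma Psi_le_M {n : ℕ} {U : Fin (n + 1) → Finset (E n)} {c : E n} {a : Fin (n + 1) → E n}
    (ha : ∀ i, a i ∈ U i) (hn : ∀ i, ‖a i‖ = 1) : Psi c a ≤ M U c ^ 2 := by
  have h1 : Psi c a = ‖(∑ i, a i) - c‖ ^ 2 := by
    unfold Psi; simp [hn]
  rw [h1]
  refine pow_le_pow_left₀ (norm_nonneg _) ?_ 2
  exact le_ciSup (f := fun s : (i : Fin (n + 1)) → {u : E n // u ∈ U i} =>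
      ‖(∑ i, (s i : E n)) - c‖) (Set.finite_range _).bddAbove (fun i => ⟨a i, ha i⟩)

theorem general {n : ℕ} {U : Fin (n + 1) → Finset (E n)} (hU : ∀ i, Balanced (U i)) (c : E n) :
    ‖c‖ ^ 2 + ((n : ℝ) + 1) + 1 / 3 ≤ M U c ^ 2 := by
  have h1 : ∀ k : ℕ, ‖c‖ ^ 2 + ((n : ℝ) + 1) + (1 - (1 / 4) ^ k) / 3 ≤ M U c ^ 2 := by
    intro k
    obtain ⟨a, ha, h⟩ := iterate hU c (t := (1 / 2) ^ k) (by positivity) k
    have h2 : (2 : ℝ) ^ k * (1 / 2) ^ k = 1 := by rw [← mul_pow]; norm_num
    have h3 : (((1 : ℝ) / 2) ^ k) ^ 2 * (4 ^ k - 1) = 1 - (1 / 4) ^ k := by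
      have h4 : (((1 : ℝ) / 2) ^ k) ^ 2 = (1 / 4) ^ k := by
        rw [← pow_mul, mul_comm, pow_mul]; norm_num
      have h5 : ((1 : ℝ) / 4) ^ k * 4 ^ k = 1 := by rw [← mul_pow]; norm_num
      rw [h4, mul_sub, h5, mul_one]
    rw [h2, h3] at h
    simp only [one_smul] at h
    exact h.trans (Psi_le_M ha fun i => (hU i).2.2.1 _ (ha i))
  have h2 : Filter.Tendsto (fun k : ℕ => ‖c‖ ^ 2 + ((n : ℝ) + 1) + (1 - (1 / 4 : ℝ) ^ k) / 3)
      Filter.atTop (nhds (‖c‖ ^ 2 + ((n : ℝ) + 1) + (1 - 0) / 3)) :=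
    ((tendsto_const_nhds.sub (tendsto_pow_atTop_nhds_zero_of_lt_one (by norm_num)
      (by norm_num))).div_const 3).const_add _
  have h3 := le_of_tendsto' h2 h1
  simpa using h3

/-! ### Regular simplices with the same number of vertices -/

/-- the form on a regular simplex -/
lemma q_simplex {n : ℕ} {w : ι → E n} {S : Finset ι} {t : ℝ}
    (hS : ∀ i ∈ S, ∀ j ∈ S, i ≠ j → inner ℝ (w i) (w j) = t) (x : ι → ℝ) :
    q S (gram w) x = t * ((∑ i ∈ S, x i) ^ 2 - T S x) := by
  unfold q T
  rw [pow_two, Finset.sum_mul, ← Finset.sum_sub_distrib, Finset.mul_sum]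
  refine Finset.sum_congr rfl fun a ha => ?_
  rw [Finset.mul_sum]
  have h1 : ∀ b ∈ S, gram w a b * (x a * x b) = t * (x a * x b) -
      (if a = b then t * x a ^ 2 else 0) := by
    intro b hb
    by_cases h : a = b
    · subst h; simp [gram]; ring
    · simp [gram, h, hS a ha b hb h]
  rw [Finset.sum_congr rfl h1, Finset.sum_sub_distrib, ← Finset.mul_sum]
  simp [ha]
  ring

/-- the vectors of the finite set are the vertices of a regular simplex inscribed in the unit
sphere with centre `0`, with `K` vertices -/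
def Regular {n : ℕ} (K : ℕ) (U : Finset (E n)) : Prop :=
  U.card = K ∧ (∀ u ∈ U, ‖u‖ = 1) ∧
    ∀ u ∈ U, ∀ v ∈ U, u ≠ v → inner ℝ u v = -1 / ((K : ℝ) - 1)

/-- the general form of `fill` -/
lemma fill' {n : ℕ} (c : E n) (P : Fin (n + 1) → Set (E n))
    (hP : ∀ i, ∃ (m : ℕ) (z : Fin m → E n), 0 < m ∧ ∑ k, z k = 0 ∧ ∀ k, z k ∈ P i)
    (y : Fin (n + 1) → E n) (R : Finset (Fin (n + 1))) (hR : ∀ i ∉ R, y i ∈ P i)
    (hR0 : ∀ i ∈ R, y i = 0) :
    ∃ a : Fin (n + 1) → E n, (∀ i, a i ∈ P i) ∧ Psi c y ≤ Psi c a := by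
  induction R using Finset.induction_on generalizing y with
  | empty => exact ⟨y, fun i => hR i (Finset.notMem_empty i), le_rfl⟩
  | insert i R hi ih =>
    obtain ⟨m, z, hm, hz, hzP⟩ := hP i
    obtain ⟨k, -, hle⟩ := Psi_split c y i (Finset.univ : Finset (Fin m)) (fun _ => 1) z
      (fun _ _ => zero_le_one) (by simpa using hm) (by simpa using hz)
      (hR0 i (Finset.mem_insert_self _ _))
    obtain ⟨a, ha, hle'⟩ := ih (Function.update y i (z k)) (fun j hj => by
        by_cases hji : j = i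
        · subst hji
          rw [Function.update_self]; exact hzP k
        · rw [Function.update_of_ne hji]
          exact hR j (by rw [Finset.mem_insert]; push Not; exact ⟨hji, hj⟩))
      (fun j hj => by
        have hji : j ≠ i := fun h => hi (h ▸ hj)
        rw [Function.update_of_ne hji]
        exact hR0 j (Finset.mem_insert_of_mem hj))
    exact ⟨a, ha, hle.trans hle'⟩

/-- the point of the simplex with weights `w ∘ π` -/
noncomputable def pt {n K : ℕ} (w : Fin K → ℝ) (v : Fin K → E n) (π : Equiv.Perm (Fin K)) : E n :=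
  ∑ a, w (π a) • v a

/-- a regular simplex, indexed -/
def Reg {n K : ℕ} (v : Fin K → E n) : Prop :=
  (∀ a, ‖v a‖ = 1) ∧ ∀ a b, a ≠ b → inner ℝ (v a) (v b) = -1 / ((K : ℝ) - 1)

lemma reg_sum {n K : ℕ} (hK : 2 ≤ K) {v : Fin K → E n} (hv : Reg v) : ∑ a, v a = 0 := by
  have h1 := norm_sq_sum v Finset.univ hv.1 (fun _ => 1)
  rw [q_simplex (t := -1 / ((K : ℝ) - 1)) (fun a _ b _ hab => hv.2 a b hab)] at h1
  have hK' : (2 : ℝ) ≤ K := by exact_mod_cast hK
  have h2 : (K : ℝ) - 1 ≠ 0 := by linarith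
  have h3 : T Finset.univ (fun _ : Fin K => (1 : ℝ)) = K := by simp [T]
  rw [h3] at h1
  simp only [one_smul, Finset.sum_const, Finset.card_univ, Fintype.card_fin, nsmul_eq_mul,
    mul_one] at h1
  have h4 : (K : ℝ) + -1 / ((K : ℝ) - 1) * ((K : ℝ) ^ 2 - K) = 0 := by
    field_simp
    ring
  rw [h4] at h1
  simpa using h1

/-- configurations with weights `w` and gain `g` -/
def Good {n K : ℕ} (v : Fin (n + 1) → Fin K → E n) (c : E n) (w : Fin K → ℝ) (g : ℝ) : Prop :=
  ∃ π : Fin (n + 1) → Equiv.Perm (Fin K),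
    ‖c‖ ^ 2 + ((n : ℝ) + 1) + g ≤ Psi c (fun i => pt w (v i) (π i))

lemma good_zero {n K : ℕ} (hK : 2 ≤ K) {v : Fin (n + 1) → Fin K → E n} (hv : ∀ i, Reg (v i))
    (c : E n) (w : Fin K → ℝ) : Good v c w 0 := by
  have : NeZero K := ⟨by omega⟩
  obtain ⟨a, ha, h⟩ := fill' c (fun i => {x | ∃ π : Equiv.Perm (Fin K), x = pt w (v i) π})
    (fun i => by
      refine ⟨K, fun k => pt w (v i) (Equiv.addRight k), by omega, ?_, fun k => ⟨_, rfl⟩⟩
      unfold pt
      rw [Finset.sum_comm]
      have h1 : ∀ a : Fin K, ∑ k : Fin K, w (Equiv.addRight k a) • v i a =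
          (∑ k, w k) • v i a := by
        intro a
        rw [← Finset.sum_smul]
        congr 1
        exact Fintype.sum_equiv (Equiv.addLeft a) _ _ (fun k => by simp)
      rw [Finset.sum_congr rfl (fun a _ => h1 a), ← Finset.smul_sum, reg_sum hK (hv i), smul_zero])
    (fun _ => 0) Finset.univ (fun i hi => by simp at hi) (fun i _ => rfl)
  choose π hπ using ha
  refine ⟨π, ?_⟩
  rw [Psi_zero] at h
  have : (fun i => pt w (v i) (π i)) = a := by funext i; exact (hπ i).symm
  rw [this]
  linarith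

/-- the weights after averaging the weights at `p` and `q` -/
noncomputable def avg {K : ℕ} (w : Fin K → ℝ) (p r : Fin K) : Fin K → ℝ := fun a =>
  if a = p ∨ a = r then (w p + w r) / 2 else w a

lemma good_step {n K : ℕ} (hK : 2 ≤ K) {v : Fin (n + 1) → Fin K → E n} (hv : ∀ i, Reg (v i))
    (c : E n) (w : Fin K → ℝ) {p r : Fin K} (hpr : p ≠ r) {g : ℝ} (h : Good v c (avg w p r) g) :
    Good v c w (g + (w p - w r) ^ 2 * (K / (2 * (K - 1)))) := by
  obtain ⟨π, hπ⟩ := h
  have hK' : (2 : ℝ) ≤ K := by exact_mod_cast hK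
  have hne : ∀ i, (π i).symm p ≠ (π i).symm r := fun i h => hpr ((π i).symm.injective h)
  set d : Fin (n + 1) → E n := fun i =>
    ((w p - w r) / 2) • (v i ((π i).symm p) - v i ((π i).symm r)) with hd
  have hdn : ∀ i, ‖d i‖ = Real.sqrt ((w p - w r) ^ 2 * (K / (2 * (K - 1)))) := by
    intro i
    rw [← Real.sqrt_sq (norm_nonneg (d i))]
    congr 1
    rw [hd]
    change ‖((w p - w r) / 2) • (v i ((π i).symm p) - v i ((π i).symm r))‖ ^ 2 = _
    rw [norm_smul, mul_pow, Real.norm_eq_abs, sq_abs, norm_sub_sq_real, (hv i).1, (hv i).1,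
      (hv i).2 _ _ (hne i)]
    have : (K : ℝ) - 1 ≠ 0 := by linarith
    field_simp
    ring
  obtain ⟨e, he, h1⟩ := move c (fun i => pt (avg w p r) (v i) (π i)) d (Real.sqrt_nonneg _) hdn
  rw [Real.sq_sqrt (by
    have : (0 : ℝ) ≤ K - 1 := by linarith
    positivity)] at h1
  refine ⟨fun i => if e i = 1 then π i else (π i).trans (Equiv.swap p r), ?_⟩
  refine le_trans (by linarith) (h1.trans (le_of_eq ?_))
  congr 1
  funext i
  -- expand the difference of the weights
  have hexp : ∀ s : ℝ, ∀ π' : Equiv.Perm (Fin K), (∀ a, w (π' a) = avg w p r (π i a) +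
      (if a = (π i).symm p then s * ((w p - w r) / 2) else 0) -
      (if a = (π i).symm r then s * ((w p - w r) / 2) else 0)) →
      pt (avg w p r) (v i) (π i) + s • d i = pt w (v i) π' := by
    intro s π' h
    unfold pt
    have h2 : ∀ a, w (π' a) • v i a = avg w p r (π i a) • v i a +
        (if a = (π i).symm p then (s * ((w p - w r) / 2)) • v i a else 0) -
        (if a = (π i).symm r then (s * ((w p - w r) / 2)) • v i a else 0) := by
      intro a
      rw [h a, sub_smul, add_smul]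
      split_ifs <;> simp
    simp only [h2, Finset.sum_sub_distrib, Finset.sum_add_distrib, Finset.sum_ite_eq',
      Finset.mem_univ, if_true]
    rw [hd]
    simp only [smul_smul, smul_sub]
    abel
  have hp : ∀ a, (π i a = p ↔ a = (π i).symm p) := fun a => by
    rw [Equiv.eq_symm_apply]
  have hr : ∀ a, (π i a = r ↔ a = (π i).symm r) := fun a => by
    rw [Equiv.eq_symm_apply]
  beta_reduce
  rcases he i with h2 | h2
  · rw [if_pos h2, h2]
    refine hexp 1 (π i) fun a => ?_
    unfold avg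
    by_cases h3 : π i a = p
    · rw [if_pos (Or.inl h3), if_pos ((hp a).1 h3), if_neg (fun h => hpr (by
        rw [← h3, ← (hr a).2 h])), h3]
      ring
    · by_cases h4 : π i a = r
      · rw [if_pos (Or.inr h4), if_neg (fun h => h3 ((hp a).2 h)), if_pos ((hr a).1 h4), h4]
        ring
      · rw [if_neg (by push Not; exact ⟨h3, h4⟩), if_neg (fun h => h3 ((hp a).2 h)),
          if_neg (fun h => h4 ((hr a).2 h))]
        ring
  · have h2' : ¬ (e i = 1) := by rw [h2]; norm_num
    rw [if_neg h2', h2]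
    refine hexp (-1) ((π i).trans (Equiv.swap p r)) fun a => ?_
    rw [Equiv.trans_apply]
    unfold avg
    by_cases h3 : π i a = p
    · rw [if_pos (Or.inl h3), if_pos ((hp a).1 h3), if_neg (fun h => hpr (by
        rw [← h3, ← (hr a).2 h])), h3, Equiv.swap_apply_left]
      ring
    · by_cases h4 : π i a = r
      · rw [if_pos (Or.inr h4), if_neg (fun h => h3 ((hp a).2 h)), if_pos ((hr a).1 h4), h4,
          Equiv.swap_apply_right]
        ring
      · rw [if_neg (by push Not; exact ⟨h3, h4⟩), if_neg (fun h => h3 ((hp a).2 h)),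
          if_neg (fun h => h4 ((hr a).2 h)), Equiv.swap_apply_of_ne_of_ne h3 h4]
        ring

/-- the squared deviation of the weights from the uniform weights -/
noncomputable def dev {K : ℕ} (w : Fin K → ℝ) : ℝ := ∑ a, (w a - 1 / K) ^ 2

lemma sum_avg {K : ℕ} (w : Fin K → ℝ) {p r : Fin K} (hpr : p ≠ r) (g : ℝ → ℝ) :
    ∑ a, g (avg w p r a) = ∑ a, g (w a) + (2 * g ((w p + w r) / 2) - g (w p) - g (w r)) := by
  have h1 : ∑ a, (g (avg w p r a) - g (w a)) =
      (g (avg w p r p) - g (w p)) + (g (avg w p r r) - g (w r)) := by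
    refine Finset.sum_eq_add p r hpr (fun a _ ha => ?_) (fun h => absurd (Finset.mem_univ _) h)
      (fun h => absurd (Finset.mem_univ _) h)
    unfold avg
    rw [if_neg (by push Not; exact ha), sub_self]
  rw [Finset.sum_sub_distrib] at h1
  have h2 : avg w p r p = (w p + w r) / 2 := by simp [avg]
  have h3 : avg w p r r = (w p + w r) / 2 := by simp [avg]
  rw [h2, h3] at h1
  linarith

lemma good_iter {n K : ℕ} (hK : 2 ≤ K) {v : Fin (n + 1) → Fin K → E n} (hv : ∀ i, Reg (v i))
    (c : E n) (k : ℕ) : ∀ w : Fin K → ℝ, ∑ a, w a = 1 →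
      Good v c w ((1 - (1 - 1 / (2 * K)) ^ k) * (dev w * (K / (K - 1)))) := by
  have hK' : (2 : ℝ) ≤ K := by exact_mod_cast hK
  have hK1 : (0 : ℝ) < K - 1 := by linarith
  have : NeZero K := ⟨by omega⟩
  induction k with
  | zero =>
    intro w _
    simpa using good_zero hK hv c w
  | succ k ih =>
    intro w hw
    by_cases hD : dev w = 0
    · rw [hD]
      simpa using good_zero hK hv c w
    obtain ⟨p, hp⟩ := Finite.exists_max w
    obtain ⟨r, hr⟩ := Finite.exists_min w
    have hup : 1 / (K : ℝ) ≤ w p := by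
      rw [div_le_iff₀ (by linarith)]
      have h := Finset.sum_le_sum (fun a (_ : a ∈ (Finset.univ : Finset (Fin K))) => hp a)
      rw [hw] at h
      simp only [Finset.sum_const, Finset.card_univ, Fintype.card_fin, nsmul_eq_mul] at h
      linarith
    have hlo : w r ≤ 1 / (K : ℝ) := by
      rw [le_div_iff₀ (by linarith)]
      have h := Finset.sum_le_sum (fun a (_ : a ∈ (Finset.univ : Finset (Fin K))) => hr a)
      rw [hw] at h
      simp only [Finset.sum_const, Finset.card_univ, Fintype.card_fin, nsmul_eq_mul] at h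
      linarith
    have hDle : dev w ≤ K * (w p - w r) ^ 2 := by
      unfold dev
      have h : ∀ a ∈ (Finset.univ : Finset (Fin K)), (w a - 1 / (K : ℝ)) ^ 2 ≤ (w p - w r) ^ 2 := by
        intro a _
        rw [sq_le_sq, abs_of_nonneg (by linarith : 0 ≤ w p - w r), abs_le]
        exact ⟨by linarith [hr a, hp a], by linarith [hr a, hp a]⟩
      refine (Finset.sum_le_sum h).trans (le_of_eq ?_)
      simp
    have hD0 : 0 < dev w := lt_of_le_of_ne (Finset.sum_nonneg fun _ _ => sq_nonneg _) (Ne.symm hD)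
    have hpr : p ≠ r := by
      intro h
      rw [h, sub_self] at hDle
      norm_num at hDle
      linarith
    have hsum : ∑ a, avg w p r a = 1 := by
      have := sum_avg w hpr (fun x => x)
      rw [this, hw]; ring
    have hdev : dev (avg w p r) = dev w - (w p - w r) ^ 2 / 2 := by
      have := sum_avg w hpr (fun x => (x - 1 / (K : ℝ)) ^ 2)
      unfold dev
      rw [this]; ring
    obtain ⟨π, hπ⟩ := good_step hK hv c w hpr (ih (avg w p r) hsum)
    refine ⟨π, le_trans ?_ hπ⟩
    set x : ℝ := (1 - 1 / (2 * K)) ^ k with hx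
    have hx0 : 0 ≤ x := by
      have : 0 ≤ 1 - 1 / (2 * (K : ℝ)) := by
        rw [sub_nonneg, div_le_one (by linarith)]; linarith
      positivity
    have hpow : (1 - 1 / (2 * (K : ℝ))) ^ (k + 1) = x * (1 - 1 / (2 * K)) := by
      rw [hx, pow_succ]
    rw [hdev, hpow]
    have h1 : (w p - w r) ^ 2 * (K / (2 * (K - 1))) = (w p - w r) ^ 2 / 2 * (K / (K - 1)) := by
      field_simp
    rw [h1]
    have h2 : (0 : ℝ) ≤ K / (K - 1) := by positivity
    have h3 : dev w / (2 * K) ≤ (w p - w r) ^ 2 / 2 := by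
      rw [div_le_iff₀ (by linarith)]
      nlinarith
    have h4 : (1 - x * (1 - 1 / (2 * K))) * dev w ≤
        (1 - x) * (dev w - (w p - w r) ^ 2 / 2) + (w p - w r) ^ 2 / 2 := by
      have h5 : x * (dev w / (2 * K)) ≤ x * ((w p - w r) ^ 2 / 2) :=
        mul_le_mul_of_nonneg_left h3 hx0
      have h6 : (1 - x * (1 - 1 / (2 * K))) * dev w =
          dev w - x * dev w + x * (dev w / (2 * K)) := by
        field_simp
        ring
      rw [h6]
      nlinarith
    have h7 := mul_le_mul_of_nonneg_right h4 h2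
    nlinarith

theorem regular {n K : ℕ} (hK : 2 ≤ K) {U : Fin (n + 1) → Finset (E n)}
    (hU : ∀ i, Regular K (U i)) (c : E n) : ‖c‖ ^ 2 + ((n : ℝ) + 2) ≤ M U c ^ 2 := by
  have hK' : (2 : ℝ) ≤ K := by exact_mod_cast hK
  have hK1 : (0 : ℝ) < K - 1 := by linarith
  have : NeZero K := ⟨by omega⟩
  set v : Fin (n + 1) → Fin K → E n := fun i a =>
    (((U i).equivFinOfCardEq (hU i).1).symm a : E n) with hvdef
  have hvU : ∀ i a, v i a ∈ U i := fun i a => (((U i).equivFinOfCardEq (hU i).1).symm a).2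
  have hv : ∀ i, Reg (v i) := by
    intro i
    refine ⟨fun a => (hU i).2.1 _ (hvU i a), fun a b hab => (hU i).2.2 _ (hvU i a) _ (hvU i b) ?_⟩
    intro h
    exact hab (((U i).equivFinOfCardEq (hU i).1).symm.injective (Subtype.ext h))
  have h1 : ∀ k : ℕ, ‖c‖ ^ 2 + ((n : ℝ) + 1) + (1 - (1 - 1 / (2 * (K : ℝ))) ^ k) ≤
      M U c ^ 2 := by
    intro k
    obtain ⟨π, hπ⟩ := good_iter hK hv c k (Pi.single 0 1) (by simp)
    have hdev : dev (Pi.single 0 1 : Fin K → ℝ) * (K / (K - 1)) = 1 := by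
      have h2 : dev (Pi.single 0 1 : Fin K → ℝ) = 1 - 1 / K := by
        unfold dev
        have h3 : ∀ a : Fin K, ((Pi.single 0 1 : Fin K → ℝ) a - 1 / (K : ℝ)) ^ 2 =
            (if a = 0 then 1 - 2 / (K : ℝ) else 0) + 1 / (K : ℝ) ^ 2 := by
          intro a
          by_cases h : a = 0
          · subst h
            rw [Pi.single_eq_same, if_pos rfl]
            ring
          · rw [Pi.single_eq_of_ne h, if_neg h]
            ring
        simp only [h3, Finset.sum_add_distrib, Finset.sum_ite_eq', Finset.mem_univ, if_true,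
          Finset.sum_const, Finset.card_univ, Fintype.card_fin, nsmul_eq_mul]
        field_simp
        ring
      rw [h2]
      field_simp
    rw [hdev, mul_one] at hπ
    refine hπ.trans ?_
    have h4 : (fun i => pt (Pi.single 0 1 : Fin K → ℝ) (v i) (π i)) =
        fun i => v i ((π i).symm 0) := by
      funext i
      unfold pt
      rw [Finset.sum_eq_single ((π i).symm 0)]
      · simp
      · intro a _ ha
        have : π i a ≠ 0 := fun h => ha (by rw [← h]; simp)
        rw [Pi.single_eq_of_ne this, zero_smul]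
      · intro h; exact absurd (Finset.mem_univ _) h
    rw [h4]
    exact Psi_le_M (fun i => hvU i _) (fun i => (hv i).1 _)
  have h2 : Filter.Tendsto
      (fun k : ℕ => ‖c‖ ^ 2 + ((n : ℝ) + 1) + (1 - (1 - 1 / (2 * (K : ℝ))) ^ k))
      Filter.atTop (nhds (‖c‖ ^ 2 + ((n : ℝ) + 1) + (1 - 0))) := by
    refine (tendsto_const_nhds.sub (tendsto_pow_atTop_nhds_zero_of_lt_one ?_ ?_)).const_add _
    · rw [sub_nonneg, div_le_one (by linarith)]; linarith
    · have : 0 < 1 / (2 * (K : ℝ)) := by positivity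
      linarith
  have h3 := le_of_tendsto' h2 h1
  linarith

/-- For all balanced families `M ≥ √(n + 4/3 + ‖c‖²)`. If all the families are regular simplices
with the same number of vertices then `M ≥ √(n + 2 + ‖c‖²)`. -/
theorem result :
    (∀ (n : ℕ) (U : Fin (n + 1) → Finset (E n)) (c : E n), (∀ i, Balanced (U i)) →
      Real.sqrt (n + 4 / 3 + ‖c‖ ^ 2) ≤ M U c) ∧
    (∀ (n K : ℕ) (U : Fin (n + 1) → Finset (E n)) (c : E n), 2 ≤ K → (∀ i, Regular K (U i)) →
      Real.sqrt (n + 2 + ‖c‖ ^ 2) ≤ M U c) := by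
  have hM : ∀ (n : ℕ) (U : Fin (n + 1) → Finset (E n)) (c : E n), 0 ≤ M U c := fun n U c =>
    Real.iSup_nonneg fun s => norm_nonneg _
  refine ⟨fun n U c hU => ?_, fun n K U c hK hU => ?_⟩
  · rw [Real.sqrt_le_left (hM n U c)]
    have := general hU c
    linarith
  · rw [Real.sqrt_le_left (hM n U c)]
    have := regular hK hU c
    linarith

end Pool.Agent.Results.MP_4da8b1_gt.GeneralBound
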